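import Pool.Agent.H.MP_bf8eef_co.A

set_option autoImplicit false

namespace Pool.Agent.H.MP_c25556_co

open Finset Function Sum Pool.Agent.H.MP_bf8eef_co
open scoped Classical

section gen
variable {α V W : Type} [Fintype α] [Fintype V] [Fintype W]

noncomputable def NR (F : SimpleGraph α) (r : α) (G : SimpleGraph V) (v : V) : ℕ :=
  (univ.filter (fun φ : α → V => IsC F G φ ∧ φ r = v)).card

noncomputable def rdeg (F : SimpleGraph α) (r : α) (G : SimpleGraph V) (v : V) : ℕ :=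
  {H : G.Subgraph | ∃ e : F ≃g H.coe, (e r).1 = v}.ncard

lemma NR_eq (F : SimpleGraph α) (r : α) (G : SimpleGraph V) (v : V) :
    NR F r G v = Nat.card {σ : F ≃g F // σ r = r} * rdeg F r G v := by
  let S := {H : G.Subgraph | ∃ e : F ≃g H.coe, (e r).1 = v}
  let T := {φ : α → V // IsC F G φ ∧ φ r = v}
  have h1 : NR F r G v = Nat.card T := by
    unfold NR
    rw [Nat.card_eq_fintype_card, Fintype.card_subtype]
  let f : (Σ H : S, {e : F ≃g H.1.coe // (e r).1 = v}) → T := fun p =>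
    ⟨fun a => (p.2.1 a).1, ⟨fun a b h => p.2.1.injective (Subtype.ext h),
      fun a b h => p.1.1.adj_sub (p.2.1.map_rel_iff.2 h)⟩, p.2.2⟩
  have hf : Bijective f := by
    constructor
    · rintro ⟨⟨H1, h1⟩, e1, k1⟩ ⟨⟨H2, h2⟩, e2, k2⟩ h
      have hh : ∀ a, (e1 a).1 = (e2 a).1 := fun a => congrFun (congrArg Subtype.val h) a
      have hH : H1 = H2 := by
        ext x y
        · rw [sub_vert H1 e1, sub_vert H2 e2]; simp only [hh]
        · rw [sub_adj H1 e1, sub_adj H2 e2]; simp only [hh]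
      subst hH
      have he : e1 = e2 := by
        ext a
        exact hh a
      subst he
      rfl
    · rintro ⟨φ, ⟨hi, ha⟩, h0⟩
      let H : G.Subgraph :=
        { verts := Set.range φ
          Adj := fun x y => ∃ a b, F.Adj a b ∧ φ a = x ∧ φ b = y
          adj_sub := by rintro x y ⟨a, b, h, rfl, rfl⟩; exact ha a b h
          edge_vert := by rintro x y ⟨a, b, h, rfl, rfl⟩; exact ⟨a, rfl⟩
          symm := ⟨by rintro x y ⟨a, b, h, rfl, rfl⟩; exact ⟨b, a, h.symm, rfl, rfl⟩⟩ }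
      let e : F ≃g H.coe :=
        { toEquiv := Equiv.ofInjective φ hi
          map_rel_iff' := by
            intro a b
            constructor
            · rintro ⟨a', b', h, h1, h2⟩
              have h3 : a' = a := hi h1
              have h4 : b' = b := hi h2
              rw [← h3, ← h4]; exact h
            · intro h
              exact ⟨a, b, h, rfl, rfl⟩ }
      exact ⟨⟨⟨H, e, h0⟩, e, h0⟩, rfl⟩
  have hfin0 : ∀ H : S, Finite (F ≃g H.1.coe) := fun H =>
    Finite.of_injective (fun e : F ≃g H.1.coe => (e : α → H.1.verts)) DFunLike.coe_injective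
  have hS : Fintype S := Fintype.ofFinite S
  rw [h1, ← Nat.card_congr (Equiv.ofBijective f hf), Nat.card_sigma]
  have h2 : ∀ H : S, Nat.card {e : F ≃g H.1.coe // (e r).1 = v} =
      Nat.card {σ : F ≃g F // σ r = r} := by
    intro H
    obtain ⟨e, he⟩ := H.2
    exact Nat.card_congr
      { toFun := fun x => ⟨x.1.trans e.symm, by
          have : x.1 r = e r := Subtype.ext (x.2.trans he.symm)
          simp [this]⟩
        invFun := fun x => ⟨x.1.trans e, by simp [x.2, he]⟩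
        left_inv := fun x => by ext a; simp
        right_inv := fun x => by ext a; simp }
  rw [Finset.sum_congr rfl (fun H _ => h2 H)]
  simp only [sum_const, card_univ, smul_eq_mul]
  rw [mul_comm, ← Nat.card_eq_fintype_card]
  rfl

lemma NR_comap (F : SimpleGraph α) (r : α) (G : SimpleGraph V) (e : W ≃ V) (w : W) :
    NR F r (G.comap e) w = NR F r G (e w) := by
  unfold NR
  apply Finset.card_nbij' (fun φ => e ∘ φ) (fun φ => e.symm ∘ φ)
  · intro φ h
    simp only [coe_filter, mem_univ, true_and, Set.mem_ofPred_eq] at h ⊢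
    obtain ⟨⟨h1, h2⟩, h3⟩ := h
    exact ⟨⟨e.injective.comp h1, fun a b h => h2 a b h⟩, by simp [h3]⟩
  · intro φ h
    simp only [coe_filter, mem_univ, true_and, Set.mem_ofPred_eq] at h ⊢
    obtain ⟨⟨h1, h2⟩, h3⟩ := h
    exact ⟨⟨e.symm.injective.comp h1, fun a b h => by simpa using h2 a b h⟩, by simp [h3]⟩
  · intro φ _; ext a; simp
  · intro φ _; ext a; simp

lemma transferR (F : SimpleGraph α) (r : α) (G : SimpleGraph V) (z : ℕ) (h2 : z ≤ Fintype.card V)
    (h : Injective (NR F r G)) :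
    ∃ (m : ℕ) (G' : SimpleGraph (Fin m)), z ≤ m ∧ Injective (rdeg F r G') := by
  refine ⟨Fintype.card V, G.comap (Fintype.equivFin V).symm, h2, fun x y hxy => ?_⟩
  apply (Fintype.equivFin V).symm.injective
  apply h
  rw [← NR_comap, ← NR_comap, NR_eq, NR_eq, hxy]

def Brk (F : SimpleGraph α) (G : SimpleGraph V) (π : V → V) (φ : α → V) : Prop :=
  ∃ a b, F.Adj a b ∧ ¬ G.Adj (π (φ a)) (π (φ b))

lemma cmp2 {F : SimpleGraph α} {G : SimpleGraph V} {r : α} {u v : V} (π π' : V → V)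
    (hπ : Involutive π) (hπ' : Involutive π') (huv : π u = v) (huv' : π' u = v)
    (B Gd : Finset (α → V))
    (hT : ∀ φ, IsC F G φ → φ r = u → φ ∉ B → Brk F G π φ →
      ¬ Brk F G π' φ ∧ Brk F G π (π' ∘ φ))
    (hG : ∀ ψ ∈ Gd, IsC F G ψ ∧ ψ r = v ∧ Brk F G π ψ ∧ Brk F G π' ψ)
    (hc : B.card < Gd.card) : NR F r G u < NR F r G v := by
  let X := univ.filter (fun φ : α → V => IsC F G φ ∧ φ r = u)
  let Y := univ.filter (fun φ : α → V => IsC F G φ ∧ φ r = v)
  have nb : ∀ (p : V → V), Involutive p → ∀ φ, IsC F G φ → ¬ Brk F G p (p ∘ φ) := by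
    rintro p hp φ h ⟨a, b, k1, k2⟩
    apply k2
    simp only [comp_apply, hp _]
    exact h.2 a b k1
  have ok : ∀ (p : V → V), Involutive p → ∀ φ, IsC F G φ → ¬ Brk F G p φ → IsC F G (p ∘ φ) := by
    intro p hp φ h k
    refine ⟨hp.injective.comp h.1, fun a b hab => ?_⟩
    by_contra hne
    exact k ⟨a, b, hab, hne⟩
  have h1 : (X \ B).card ≤ (Y \ Gd).card := by
    apply card_le_card_of_injOn (fun φ => if Brk F G π φ then π' ∘ φ else π ∘ φ)
    · intro φ h
      simp only [X, Y, coe_sdiff, coe_filter, mem_univ, true_and, Set.mem_sdiff, Set.mem_ofPred_eq,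
        mem_coe] at h ⊢
      split_ifs with hb
      · obtain ⟨k1, -⟩ := hT φ h.1.1 h.1.2 h.2 hb
        exact ⟨⟨ok _ hπ' φ h.1.1 k1, by simp [h.1.2, huv']⟩,
          fun hm => nb _ hπ' φ h.1.1 (hG _ hm).2.2.2⟩
      · exact ⟨⟨ok _ hπ φ h.1.1 hb, by simp [h.1.2, huv]⟩,
          fun hm => nb _ hπ φ h.1.1 (hG _ hm).2.2.1⟩
    · intro φ h ψ h' e
      simp only [X, coe_sdiff, coe_filter, mem_univ, true_and, Set.mem_sdiff, Set.mem_ofPred_eq,
        mem_coe] at h h'
      simp only at e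
      split_ifs at e with h3 h4 h4
      · ext a; exact hπ'.injective (congrFun e a)
      · have := (hT φ h.1.1 h.1.2 h.2 h3).2
        rw [e] at this
        exact absurd this (nb _ hπ ψ h'.1.1)
      · have := (hT ψ h'.1.1 h'.1.2 h'.2 h4).2
        rw [← e] at this
        exact absurd this (nb _ hπ φ h.1.1)
      · ext a; exact hπ.injective (congrFun e a)
  have h2 : Gd ⊆ Y := fun ψ h => by
    simp only [Y, mem_filter, mem_univ, true_and]
    exact ⟨(hG ψ h).1, (hG ψ h).2.1⟩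
  have h3 := card_sdiff_add_card_eq_card h2
  have h4 : X.card ≤ (X \ B).card + B.card := by
    have := card_sdiff_add_card X B
    have := card_le_card (subset_union_left (s₁ := X) (s₂ := B))
    omega
  show X.card < Y.card
  omega

lemma cmp1 {F : SimpleGraph α} {G : SimpleGraph V} {r : α} {u v : V} (π : V → V)
    (hπ : Involutive π) (huv : π u = v) (B Gd : Finset (α → V))
    (hT : ∀ φ, IsC F G φ → φ r = u → Brk F G π φ → φ ∈ B)
    (hG : ∀ ψ ∈ Gd, IsC F G ψ ∧ ψ r = v ∧ Brk F G π ψ)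
    (hc : B.card < Gd.card) : NR F r G u < NR F r G v :=
  cmp2 π π hπ hπ huv huv B Gd (fun φ h1 h2 h3 h4 => absurd (hT φ h1 h2 h4) h3)
    (fun ψ h => ⟨(hG ψ h).1, (hG ψ h).2.1, (hG ψ h).2.2, (hG ψ h).2.2⟩) hc

lemma link {F : SimpleGraph α} {G : SimpleGraph V} {r : α} (hr : ∀ a, a ≠ r → F.Adj r a)
    {u v : V} (π : V → V) (hπ : Involutive π) (huv : π u = v)
    (h1 : ∀ z, G.Adj u z → G.Adj v (π z))
    (h2 : ∀ z z', G.Adj u z → G.Adj u z' → G.Adj z z' → G.Adj (π z) (π z'))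
    (ψ : α → V) (k1 : IsC F G ψ) (k2 : ψ r = v) (k3 : Brk F G π ψ) :
    NR F r G u < NR F r G v := by
  apply cmp1 π hπ huv ∅ {ψ}
  · rintro φ m1 m2 ⟨a, b, hab, m3⟩
    exfalso; apply m3
    have m4 := m1.2 a b hab
    by_cases ha : a = r
    · subst ha; rw [m2] at m4 ⊢; rw [huv]; exact h1 _ m4
    by_cases hb : b = r
    · subst hb; rw [m2] at m4 ⊢; rw [huv]; exact (h1 _ m4.symm).symm
    exact h2 _ _ (m2 ▸ m1.2 _ _ (hr a ha)) (m2 ▸ m1.2 _ _ (hr b hb)) m4
  · intro φ h
    rw [mem_singleton] at h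
    subst h
    exact ⟨k1, k2, k3⟩
  · simp

lemma nestU {F : SimpleGraph α} {G : SimpleGraph V} {r : α} (hr : ∀ a, a ≠ r → F.Adj r a)
    {u v : V} (hn : ∀ w, G.Adj u w → w ≠ v → G.Adj v w)
    (ψ : α → V) (k1 : IsC F G ψ) (k2 : ψ r = v) (s : α) (hs : s ≠ r) (k3 : ψ s ≠ u)
    (k4 : ¬ G.Adj u (ψ s)) : NR F r G u < NR F r G v := by
  apply link hr (Equiv.swap u v) (fun x => Equiv.swap_apply_self _ _ _) (Equiv.swap_apply_left _ _)
    _ _ ψ k1 k2
  · refine ⟨r, s, hr s hs, ?_⟩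
    have : ψ s ≠ v := fun e => hs (k1.1 (e.trans k2.symm))
    rw [k2, Equiv.swap_apply_right, Equiv.swap_apply_of_ne_of_ne k3 this]
    exact k4
  · intro z hz
    by_cases h : z = v
    · subst h; rw [Equiv.swap_apply_right]; exact hz.symm
    · rw [Equiv.swap_apply_of_ne_of_ne hz.ne' h]; exact hn z hz h
  · intro z z' h1 h2 h3
    by_cases h : z = v
    · subst h
      rw [Equiv.swap_apply_right, Equiv.swap_apply_of_ne_of_ne h2.ne' h3.ne']; exact h2
    by_cases h' : z' = v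
    · subst h'
      rw [Equiv.swap_apply_right, Equiv.swap_apply_of_ne_of_ne h1.ne' h3.ne]; exact h1.symm
    rw [Equiv.swap_apply_of_ne_of_ne h1.ne' h, Equiv.swap_apply_of_ne_of_ne h2.ne' h']
    exact h3

omit [Fintype V] in
lemma tri_copy {F : SimpleGraph α} {G : SimpleGraph V} (C : Finset V) (x y z : V) (r s t : α)
    (hrs : r ≠ s) (hrt : r ≠ t) (hst : s ≠ t)
    (hC : ∀ z ∈ C, ∀ z' ∈ C, z ≠ z' → G.Adj z z') (hx : ∀ z ∈ C, G.Adj x z)
    (hy : ∀ z ∈ C, G.Adj y z) (hz : ∀ z' ∈ C, G.Adj z z') (hxy : G.Adj x y) (hxz : G.Adj x z)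
    (hyz : G.Adj y z) (hc : Fintype.card α ≤ C.card) :
    ∃ ψ : α → V, IsC F G ψ ∧ ψ r = x ∧ ψ s = y ∧ ψ t = z := by
  obtain ⟨g, hg⟩ := Function.Embedding.exists_of_card_le_finset hc
  have hg' : ∀ a, g a ∈ C := fun a => hg ⟨a, rfl⟩
  let ψ : α → V := fun a => if a = r then x else if a = s then y else if a = t then z else g a
  have hψ : ∀ a, (a = r ∧ ψ a = x) ∨ (a = s ∧ ψ a = y) ∨ (a = t ∧ ψ a = z) ∨ ψ a = g a := by
    intro a
    simp only [ψ]
    split_ifs <;> simp [*]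
  have key : ∀ a b, a ≠ b → G.Adj (ψ a) (ψ b) := by
    intro a b hab
    have ga := hg' a
    have gb := hg' b
    rcases hψ a with ⟨a1, a2⟩ | ⟨a1, a2⟩ | ⟨a1, a2⟩ | a2 <;>
    rcases hψ b with ⟨b1, b2⟩ | ⟨b1, b2⟩ | ⟨b1, b2⟩ | b2 <;> rw [a2, b2] <;>
    first
      | exact absurd (a1.trans b1.symm) hab
      | assumption
      | (symm; assumption)
      | exact hx _ gb
      | exact hy _ gb
      | exact hz _ gb
      | exact (hx _ ga).symm
      | exact (hy _ ga).symm
      | exact (hz _ ga).symm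
      | exact hC _ ga _ gb (fun h => hab (g.injective h))
  refine ⟨ψ, ⟨fun a b h => ?_, fun a b h => key a b h.ne⟩, by simp [ψ], by simp [ψ, hrs.symm],
    by simp [ψ, hrt.symm, hst.symm]⟩
  by_contra hab
  exact (key a b hab).ne h

omit [Fintype V] in
lemma prod4 [DecidableEq α] (T1 T2 T3 : Finset α) (h12 : Disjoint T1 T2) (h13 : Disjoint T1 T3)
    (h23 : Disjoint T2 T3) (g : α → ℕ) (x2 x3 x4 : ℕ) (h1 : ∀ a ∈ T1, g a = 1)
    (h2 : ∀ a ∈ T2, g a = x2) (h3 : ∀ a ∈ T3, g a = x3)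
    (h4 : ∀ a, a ∉ T1 → a ∉ T2 → a ∉ T3 → g a = x4) :
    ∏ a, g a = x2 ^ T2.card * x3 ^ T3.card *
      x4 ^ (Fintype.card α - (T1.card + T2.card + T3.card)) := by
  rw [← prod_mul_prod_compl (T1 ∪ T2 ∪ T3), prod_union (by simp [h13, h23]), prod_union h12,
    prod_eq_one h1, one_mul, prod_congr rfl h2, prod_congr rfl h3, prod_const, prod_const,
    prod_congr rfl (fun a ha => h4 a (by simp at ha; exact ha.1) (by simp at ha; exact ha.2.1)
      (by simp at ha; exact ha.2.2)), prod_const, card_compl,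
    card_union_of_disjoint (by simp [h13, h23]), card_union_of_disjoint h12]

end gen

section split
variable (A : ℕ → ℕ → Prop) (m q : ℕ)

def vl {m q : ℕ} : Fin m ⊕ Fin q → ℕ := Sum.elim Fin.val Fin.val

@[simp] lemma vl_l {m q : ℕ} (x : Fin m) : vl (inl x : Fin m ⊕ Fin q) = x.val := rfl
@[simp] lemma vl_r {m q : ℕ} (x : Fin q) : vl (inr x : Fin m ⊕ Fin q) = x.val := rfl

def adj : Fin m ⊕ Fin q → Fin m ⊕ Fin q → Prop
  | inl _, inl _ => False
  | inl t, inr p => A t p
  | inr p, inl t => A t p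
  | inr p, inr p' => p.val ≠ p'.val

def GA : SimpleGraph (Fin m ⊕ Fin q) where
  Adj := adj A m q
  symm := ⟨by rintro (x | x) (y | y) h <;> simp only [adj] at h ⊢ <;> first | exact h | exact h.symm⟩
  loopless := ⟨by rintro (x | x) h <;> simp [adj] at h⟩

variable {A m q}

@[simp] lemma GA_ll (x y : Fin m) : (GA A m q).Adj (inl x) (inl y) ↔ False := Iff.rfl
@[simp] lemma GA_lr (x : Fin m) (y : Fin q) : (GA A m q).Adj (inl x) (inr y) ↔ A x y := Iff.rfl
@[simp] lemma GA_rl (x : Fin q) (y : Fin m) : (GA A m q).Adj (inr x) (inl y) ↔ A y x := Iff.rfl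
@[simp] lemma GA_rr (x y : Fin q) : (GA A m q).Adj (inr x) (inr y) ↔ x.val ≠ y.val := Iff.rfl

noncomputable def PP (m q : ℕ) (b : Bool) (a w : ℕ) : Finset (Fin m ⊕ Fin q) :=
  univ.filter (fun x => x.isRight = b ∧ a ≤ vl x ∧ vl x < a + w)

lemma mem_PP {b : Bool} {a w : ℕ} {x : Fin m ⊕ Fin q} :
    x ∈ PP m q b a w ↔ x.isRight = b ∧ a ≤ vl x ∧ vl x < a + w := by
  simp [PP]

lemma PP_le (b : Bool) (a w : ℕ) : (PP m q b a w).card ≤ w := by
  have : (PP m q b a w).card ≤ (Ico a (a + w)).card := by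
    apply card_le_card_of_injOn vl
    · intro x hx
      have := mem_PP.1 hx
      simp only [coe_Ico, Set.mem_Ico]
      exact this.2
    · intro x hx y hy e
      have h1 := (mem_PP.1 hx).1.trans (mem_PP.1 hy).1.symm
      rcases x with x | x <;> rcases y with y | y <;> simp at h1 e ⊢ <;> exact Fin.ext e
  simpa using this

lemma PP_card (b : Bool) {a w : ℕ} (h : a + w ≤ if b then q else m) :
    (PP m q b a w).card = w := by
  apply le_antisymm (PP_le b a w)
  have : (Ico a (a + w)).card ≤ (PP m q b a w).card := by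
    apply card_le_card_of_surjOn vl
    intro z hz
    simp only [coe_Ico, Set.mem_Ico] at hz
    cases b
    · simp only [Bool.false_eq_true, if_false] at h
      exact ⟨inl ⟨z, by omega⟩, mem_PP.2 ⟨rfl, hz⟩, rfl⟩
    · simp only [if_true] at h
      exact ⟨inr ⟨z, by omega⟩, mem_PP.2 ⟨rfl, hz⟩, rfl⟩
  simpa using this

lemma eq_of_PP {x y : Fin m ⊕ Fin q} (h : x ∈ PP m q y.isRight (vl y) 1) : x = y := by
  obtain ⟨h1, h2, h3⟩ := mem_PP.1 h
  have e : vl x = vl y := by omega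
  rcases x with x | x <;> rcases y with y | y <;> simp at h1 e ⊢ <;> exact Fin.ext e

lemma pool2 {α : Type} [Fintype α] [DecidableEq α] {F : SimpleGraph α} (sb : α → Bool)
    (st wd : α → ℕ)
    (hd : ∀ a b, a ≠ b → sb a = sb b → st a + wd a ≤ st b ∨ st b + wd b ≤ st a)
    (h1 : ∀ a b, F.Adj a b → sb a = false → sb b = true ∧
      ∀ x p, st a ≤ x → x < st a + wd a → st b ≤ p → p < st b + wd b → A x p)
    (φ : α → Fin m ⊕ Fin q) (h : φ ∈ Fintype.piFinset (fun a => PP m q (sb a) (st a) (wd a))) :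
    IsC F (GA A m q) φ := by
  refine pool _ ?_ ?_ φ h
  · intro a b hab x hx y hy hxy
    subst hxy
    obtain ⟨k0, k1, k2⟩ := mem_PP.1 hx
    obtain ⟨k3, k4, k5⟩ := mem_PP.1 hy
    have := hd a b hab (k0.symm.trans k3)
    omega
  · intro a b hab x hx y hy
    obtain ⟨k0, k1, k2⟩ := mem_PP.1 hx
    obtain ⟨k3, k4, k5⟩ := mem_PP.1 hy
    rcases x with x | x <;> rcases y with y | y
    · have := (h1 a b hab k0.symm).1
      rw [← k3] at this; simp at this
    · exact (h1 a b hab k0.symm).2 _ _ k1 k2 k4 k5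
    · exact (h1 b a hab.symm k3.symm).2 _ _ k4 k5 k1 k2
    · have := hd a b hab.ne (k0.symm.trans k3)
      simp only [vl_r] at k1 k2 k4 k5
      simp only [GA_rr]
      omega

noncomputable def NC (A : ℕ → ℕ → Prop) (m q c : ℕ) : Finset (Fin m ⊕ Fin q) :=
  (univ.filter (fun p : Fin q => A c p)).map Embedding.inr

lemma mem_NC {c : ℕ} {x : Fin m ⊕ Fin q} : x ∈ NC A m q c ↔ ∃ p : Fin q, A c p ∧ inr p = x := by
  simp [NC]

lemma NC_ge (c S : ℕ) (g : ℕ → ℕ) (h1 : ∀ j < S, g j < q ∧ A c (g j))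
    (h2 : ∀ i < S, ∀ j < S, g i = g j → i = j) : S ≤ (NC A m q c).card := by
  have : ((range S).image g).card ≤ (NC A m q c).card := by
    apply card_le_card_of_surjOn vl
    intro z hz
    simp only [coe_image, coe_range, Set.mem_image, Set.mem_Iio] at hz
    obtain ⟨j, hj, rfl⟩ := hz
    exact ⟨inr ⟨g j, (h1 j hj).1⟩, mem_NC.2 ⟨_, (h1 j hj).2, rfl⟩, rfl⟩
  rwa [card_image_of_injOn (fun i hi j hj => h2 i (by simpa using hi) j (by simpa using hj)),
    card_range] at this

/-- a copy through one column and two rows -/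
lemma copy3 {n : ℕ} (F : SimpleGraph (Fin n)) (a b c : Fin n) (hab : a ≠ b) (hac : a ≠ c)
    (hbc : b ≠ c) (x : Fin m) (p p' : Fin q) (h1 : A x p) (h2 : A x p') (h3 : p.val ≠ p'.val)
    (hN : n + 2 ≤ (NC A m q x).card) :
    ∃ ψ : Fin n → Fin m ⊕ Fin q, IsC F (GA A m q) ψ ∧ ψ a = inl x ∧ ψ b = inr p ∧ ψ c = inr p' := by
  have hm : ∀ z ∈ ((NC A m q x).erase (inr p)).erase (inr p'), ∃ y : Fin q, A x y ∧ z = inr y ∧
      p.val ≠ y.val ∧ p'.val ≠ y.val := by
    intro z hz
    obtain ⟨y, k, rfl⟩ := mem_NC.1 (mem_of_mem_erase (mem_of_mem_erase hz))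
    exact ⟨y, k, rfl, fun e => ne_of_mem_erase (mem_of_mem_erase hz) (by rw [Fin.ext e]),
      fun e => ne_of_mem_erase hz (by rw [Fin.ext e])⟩
  apply tri_copy (((NC A m q x).erase (inr p)).erase (inr p')) _ _ _ a b c hab hac hbc
  · intro z hz z' hz' hne
    obtain ⟨y, -, rfl, -⟩ := hm z hz
    obtain ⟨y', -, rfl, -⟩ := hm z' hz'
    exact fun e => hne (by rw [Fin.ext e])
  · intro z hz
    obtain ⟨y, k, rfl, -⟩ := hm z hz
    exact k
  · intro z hz
    obtain ⟨y, -, rfl, k, -⟩ := hm z hz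
    exact k
  · intro z hz
    obtain ⟨y, -, rfl, -, k⟩ := hm z hz
    exact k
  · exact h1
  · exact h2
  · exact h3
  · have e2 := pred_card_le_card_erase (s := NC A m q x) (a := inr p)
    have e3 := pred_card_le_card_erase (s := (NC A m q x).erase (inr p)) (a := inr p')
    rw [Fintype.card_fin]
    omega

lemma mono_of_succ {q : ℕ} (f : Fin q → ℕ) (h : ∀ a b : Fin q, b.val = a.val + 1 → f a < f b) :
    StrictMono f := by
  cases q with
  | zero => intro a; exact a.elim0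
  | succ q =>
    rw [Fin.strictMono_iff_lt_succ]
    intro i
    exact h _ _ (by simp)

lemma chain (f : Fin m ⊕ Fin q → ℕ)
    (h1 : ∀ a b : Fin m, b.val = a.val + 1 → f (inl a) < f (inl b))
    (h2 : ∀ a b : Fin q, b.val = a.val + 1 → f (inr b) < f (inr a))
    (h3 : ∀ (a : Fin m) (b : Fin q), a.val + 1 = m → b.val + 1 = q → f (inl a) < f (inr b)) :
    Injective f := by
  have s1 : StrictMono (fun t : Fin m => f (inl t)) := mono_of_succ _ h1
  have s2 : StrictMono (fun t : Fin q => f (inr t.rev)) := by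
    apply mono_of_succ
    intro a b hab
    apply h2
    have := b.2
    simp only [Fin.val_rev]; omega
  have s3 : ∀ a b, f (inl a) < f (inr b) := by
    intro a b
    have ha := a.2
    have hb := b.2
    let t : Fin m := ⟨m - 1, by omega⟩
    let t' : Fin q := ⟨q - 1, by omega⟩
    have e1 := h3 t t' (by simp only [t]; omega) (by simp only [t']; omega)
    have e2 := s1.monotone (show a ≤ t by simp only [t, Fin.le_def]; omega)
    have e3 := s2.monotone (show t'.rev ≤ b.rev by simp only [t', Fin.le_def, Fin.val_rev]; omega)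
    simp only [Fin.rev_rev] at e2 e3
    omega
  rintro (a | a) (b | b) h
  · rw [s1.injective h]
  · exact absurd h (s3 a b).ne
  · exact absurd h.symm (s3 b a).ne
  · have : a.rev = b.rev := s2.injective (by simpa only [Fin.rev_rev] using h)
    rw [Fin.rev_injective this]

end split

end Pool.Agent.H.MP_c25556_co
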