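import Pool.Agent.H.MP_c25556_co.A
import Pool.Agent.H.MP_bf8eef_co.C

set_option autoImplicit false

namespace Pool.Agent.H.MP_c25556_co

open Finset Function Sum
open Pool.Agent.H.MP_bf8eef_co (IsC many many_card mem_many pool pool_card num edge_copy bl bl_ge bl_le bl_ne)
open scoped Classical

section univ
variable {A : ℕ → ℕ → Prop} {m q n : ℕ} {F : SimpleGraph (Fin n)}

lemma copy2 (F : SimpleGraph (Fin n)) (a b : Fin n) (hab : a ≠ b) (x : Fin m) (p : Fin q)
    (h1 : A x p) (hN : n + 2 ≤ (NC A m q x).card) :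
    ∃ ψ : Fin n → Fin m ⊕ Fin q, IsC F (GA A m q) ψ ∧ ψ a = inl x ∧ ψ b = inr p := by
  have hm : ∀ z ∈ (NC A m q x).erase (inr p), ∃ y : Fin q, A x y ∧ z = inr y ∧ p.val ≠ y.val := by
    intro z hz
    obtain ⟨y, k, rfl⟩ := mem_NC.1 (mem_of_mem_erase hz)
    exact ⟨y, k, rfl, fun e => ne_of_mem_erase hz (by rw [Fin.ext e])⟩
  obtain ⟨ψ, k1, k2, k3, -⟩ := edge_copy (F := F) (G := GA A m q) ((NC A m q x).erase (inr p))
    (inl x) (inr p) a b hab
    (by
      intro z hz z' hz' hne
      obtain ⟨y, -, rfl, -⟩ := hm z hz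
      obtain ⟨y', -, rfl, -⟩ := hm z' hz'
      exact fun e => hne (by rw [Fin.ext e]))
    (by
      intro z hz
      obtain ⟨y, k, rfl, -⟩ := hm z hz
      exact k)
    (by
      intro z hz
      obtain ⟨y, -, rfl, k⟩ := hm z hz
      exact k)
    h1
    (by
      have e2 := pred_card_le_card_erase (s := NC A m q x) (a := inr p)
      rw [Fintype.card_fin]
      omega)
  exact ⟨ψ, k1, k2, k3⟩

variable {r s t : Fin n} (hr : ∀ a, a ≠ r → F.Adj r a) (hs : s ≠ r) (ht : t ≠ r)
  (hst : F.Adj s t) (hN : ∀ c : Fin m, n + 2 ≤ (NC A m q c).card)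
include hr hs hN

lemma rowNest (u v : Fin q) (h1 : ∀ c, A c u → A c v) (c : ℕ) (hc : c < m) (h2 : A c v)
    (h3 : ¬ A c u) : NR F r (GA A m q) (inr u) < NR F r (GA A m q) (inr v) := by
  obtain ⟨ψ, k1, k2, k3⟩ := copy2 F s r hs ⟨c, hc⟩ v h2 (hN _)
  refine nestU hr ?_ ψ k1 k3 s hs (by simp [k2]) (by rw [k2]; exact h3)
  rintro (x | x) hx hne
  · exact h1 _ hx
  · exact fun e => hne (by rw [Fin.ext e])

lemma colNest (u v : Fin m) (h1 : ∀ p, A u p → A v p) (p : ℕ) (hp : p < q) (h2 : A v p)
    (h3 : ¬ A u p) : NR F r (GA A m q) (inl u) < NR F r (GA A m q) (inl v) := by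
  obtain ⟨ψ, k1, k2, k3⟩ := copy2 F r s hs.symm v ⟨p, hp⟩ h2 (hN _)
  refine nestU hr ?_ ψ k1 k2 s hs (by simp [k3]) (by rw [k3]; exact h3)
  rintro (x | x) hx hne
  · exact hx.elim
  · exact h1 _ hx

lemma junction (u : Fin m) (v : Fin q) (c : ℕ) (hc : c < m) (h2 : A c v) (h3 : c ≠ u.val) :
    NR F r (GA A m q) (inl u) < NR F r (GA A m q) (inr v) := by
  obtain ⟨ψ, k1, k2, k3⟩ := copy2 F s r hs ⟨c, hc⟩ v h2 (hN _)
  refine nestU hr ?_ ψ k1 k3 s hs ?_ (by rw [k2]; simp)
  · rintro (x | x) hx hne
    · exact hx.elim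
    · exact fun e => hne (by rw [Fin.ext e])
  · rw [k2]; intro e; exact h3 (congrArg Fin.val (inl.inj e))

lemma colSwap (u v : Fin m) (e p1 p2 : ℕ) (he : e < q) (hp1 : p1 < q) (hp2 : p2 < q)
    (h1 : ∀ p, p ≠ e → A u p → A v p) (h2 : ¬ A u p1) (h3 : A v p1) (h4 : A v p2)
    (h5 : ¬ A u p2) (h6 : p2 ≠ p1) (h7 : p2 ≠ e) :
    NR F r (GA A m q) (inl u) < NR F r (GA A m q) (inl v) := by
  obtain ⟨ψ, k1, k2, k3⟩ := copy2 F r s hs.symm v ⟨p2, hp2⟩ h4 (hN _)
  let σ : Fin q → Fin q := Equiv.swap ⟨e, he⟩ ⟨p1, hp1⟩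
  refine link hr (Sum.map (Equiv.swap u v) σ) (by rintro (x | x) <;> simp [σ]) (by simp) ?_ ?_
    ψ k1 k2 ⟨r, s, hr s hs, ?_⟩
  · rintro (x | x) hx
    · exact hx.elim
    · simp only [Sum.map_inr, GA_lr, σ] at hx ⊢
      by_cases k : x = ⟨e, he⟩
      · rw [k, Equiv.swap_apply_left]; exact h3
      · rw [Equiv.swap_apply_of_ne_of_ne k (fun k' => h2 (by rw [k'] at hx; exact hx))]
        exact h1 _ (fun k' => k (Fin.ext k')) hx
  · rintro (x | x) (y | y) hx hy hxy
    · exact hx.elim
    · exact hx.elim
    · exact hy.elim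
    · simp only [Sum.map_inr, GA_rr, σ] at hxy ⊢
      exact fun k => hxy (congrArg Fin.val ((Equiv.swap _ _).injective (Fin.ext k)))
  · rw [k2, k3]
    simp only [Sum.map_inr, Sum.map_inl, Equiv.swap_apply_right, σ]
    rw [Equiv.swap_apply_of_ne_of_ne (fun k => h7 (congrArg Fin.val k))
      (fun k => h6 (congrArg Fin.val k))]
    exact h5

include ht hst in
lemma rowSwap (u v : Fin q) (a b w : ℕ) (ha : a < m) (hb : b < m) (hw : w < q)
    (hu : ¬ A b u) (hv : A b v) (hva : ¬ A a v) (h1 : ∀ c, c ≠ a → A c u → A c v)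
    (h2 : ∀ p, p ≠ u.val → A a p → A b p) (w1 : w ≠ u.val) (w2 : w ≠ v.val) (w3 : A b w)
    (w4 : ¬ A a w) : NR F r (GA A m q) (inr u) < NR F r (GA A m q) (inr v) := by
  obtain ⟨ψ, k1, k2, k3, k4⟩ := copy3 F s r t hs hst.ne ht.symm ⟨b, hb⟩ v ⟨w, hw⟩ hv w3 w2.symm
    (hN _)
  let σ : Fin m → Fin m := Equiv.swap ⟨a, ha⟩ ⟨b, hb⟩
  have aux : ∀ (x : Fin m) (y : Fin q), A x u → y ≠ u → A x y → A (σ x) (Equiv.swap u v y) := by
    intro x y m1 m2 m3
    by_cases k : x = ⟨a, ha⟩
    · subst k
      have : y ≠ v := fun e => hva (e ▸ m3)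
      simp only [σ, Equiv.swap_apply_left, Equiv.swap_apply_of_ne_of_ne m2 this]
      exact h2 _ (fun e => m2 (Fin.ext e)) m3
    · have k' : x ≠ ⟨b, hb⟩ := fun k' => hu (by rw [k'] at m1; exact m1)
      simp only [σ, Equiv.swap_apply_of_ne_of_ne k k']
      by_cases k2 : y = v
      · rw [k2, Equiv.swap_apply_right]; exact m1
      · rw [Equiv.swap_apply_of_ne_of_ne m2 k2]; exact m3
  refine link hr (Sum.map σ (Equiv.swap u v)) (by rintro (x | x) <;> simp [σ]) (by simp) ?_ ?_
    ψ k1 k3 ⟨s, t, hst, ?_⟩
  · rintro (x | x) hx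
    · simp only [Sum.map_inl, GA_rl, σ] at hx ⊢
      by_cases k : x = ⟨a, ha⟩
      · rw [k, Equiv.swap_apply_left]; exact hv
      · rw [Equiv.swap_apply_of_ne_of_ne k (fun k' => hu (by rw [k'] at hx; exact hx))]
        exact h1 _ (fun k' => k (Fin.ext k')) hx
    · simp only [Sum.map_inr, GA_rr] at hx ⊢
      intro k
      apply hx
      have : Equiv.swap u v u = Equiv.swap u v x := by rw [Equiv.swap_apply_left]; exact Fin.ext k
      rw [(Equiv.swap u v).injective this]
  · rintro (x | x) (y | y) hx hy hxy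
    · exact hxy.elim
    · exact aux x y hx (fun e => hy (by rw [e])) hxy
    · exact aux y x hy (fun e => hx (by rw [e])) hxy
    · simp only [Sum.map_inr, GA_rr] at hxy ⊢
      exact fun k => hxy (congrArg Fin.val ((Equiv.swap _ _).injective (Fin.ext k)))
  · rw [k2, k4]
    simp only [Sum.map_inr, Sum.map_inl, Equiv.swap_apply_right, σ]
    rw [Equiv.swap_apply_of_ne_of_ne (fun k => w1 (congrArg Fin.val k))
      (fun k => w2 (congrArg Fin.val k))]
    exact w4

end univ

/-- the pool family with one column and one row prescribed -/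
lemma fam {A : ℕ → ℕ → Prop} {m q n W : ℕ} (F : SimpleGraph (Fin n)) (r s : Fin n) (hs : s ≠ r)
    (v : Fin q) (c : Fin m) (o : ℕ) (hv : v.val < o ∨ o + (n + 2) * W ≤ v.val)
    (hq : o + (n + 2) * W ≤ q) (h1 : A c v)
    (h2 : (∀ a, F.Adj s a → a = r) ∨ ∀ p, o ≤ p → p < o + (n + 2) * W → A c p) :
    ∃ Gd : Finset (Fin n → Fin m ⊕ Fin q), Gd.card = W ^ (n - 2) ∧
      ∀ ψ ∈ Gd, IsC F (GA A m q) ψ ∧ ψ r = inr v ∧ ψ s = inl c := by
  let sb : Fin n → Bool := fun a => decide (a ≠ s)
  let st : Fin n → ℕ := fun a => if a = s then c.val else if a = r then v.val else o + bl W a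
  let wd : Fin n → ℕ := fun a => if a = s ∨ a = r then 1 else W
  have hcs : ∀ a, (a = s ∧ sb a = false ∧ st a = c.val ∧ wd a = 1) ∨
      (a = r ∧ sb a = true ∧ st a = v.val ∧ wd a = 1) ∨
      (a ≠ s ∧ a ≠ r ∧ sb a = true ∧ st a = o + bl W a ∧ wd a = W) := by
    intro a
    by_cases k1 : a = s
    · left; simp [sb, st, wd, k1]
    by_cases k2 : a = r
    · right; left; subst k2; simp [sb, st, wd, k1]
    · right; right; simp [sb, st, wd, k1, k2]
  refine ⟨Fintype.piFinset (fun a => PP m q (sb a) (st a) (wd a)), ?_, fun ψ hψ => ⟨?_, ?_, ?_⟩⟩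
  · rw [pool_card _ {s, r} W, card_pair hs, Fintype.card_fin]
    · intro a ha
      simp only [mem_insert, mem_singleton] at ha
      have := c.2
      have := v.2
      rcases hcs a with ⟨a1, a2, a3, a4⟩ | ⟨a1, a2, a3, a4⟩ | ⟨a1, a1', a2, a3, a4⟩
      · rw [PP_card _ (by simp [a2]; omega), a4]
      · rw [PP_card _ (by simp [a2]; omega), a4]
      · exact absurd ha (by simp [a1, a1'])
    · intro a ha
      have e7 := bl_le W a
      simp only [mem_insert, mem_singleton, not_or] at ha
      rcases hcs a with ⟨a1, a2, a3, a4⟩ | ⟨a1, a2, a3, a4⟩ | ⟨a1, a1', a2, a3, a4⟩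
      · exact absurd a1 ha.1
      · exact absurd a1 ha.2
      · rw [PP_card _ (by simp [a2]; omega), a4]
  · refine pool2 sb st wd ?_ ?_ ψ hψ
    · intro a b hab hsb
      have e6 := bl_le W a
      have e7 := bl_le W b
      have e8 := bl_ne W hab
      rcases hcs a with ⟨a1, a2, a3, a4⟩ | ⟨a1, a2, a3, a4⟩ | ⟨a1, a1', a2, a3, a4⟩ <;>
      rcases hcs b with ⟨b1, b2, b3, b4⟩ | ⟨b1, b2, b3, b4⟩ | ⟨b1, b1', b2, b3, b4⟩ <;>
      first
        | exact absurd (a1.trans b1.symm) hab
        | (rw [a2, b2] at hsb; exact absurd hsb (by decide))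
        | omega
    · intro a b hab hsb
      have e7 := bl_le W b
      rcases hcs a with ⟨a1, a2, a3, a4⟩ | ⟨a1, a2, a3, a4⟩ | ⟨a1, a1', a2, a3, a4⟩
      · rcases hcs b with ⟨b1, b2, b3, b4⟩ | ⟨b1, b2, b3, b4⟩ | ⟨b1, b1', b2, b3, b4⟩
        · exact absurd (a1.trans b1.symm) hab.ne
        · refine ⟨b2, fun x p m1 m2 m3 m4 => ?_⟩
          obtain rfl : x = c.val := by omega
          obtain rfl : p = v.val := by omega
          exact h1
        · refine ⟨b2, fun x p m1 m2 m3 m4 => ?_⟩
          obtain rfl : x = c.val := by omega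
          rcases h2 with h2 | h2
          · exact absurd (h2 b (a1 ▸ hab)) b1'
          · exact h2 p (by omega) (by omega)
      · rw [a2] at hsb; exact absurd hsb (by decide)
      · rw [a2] at hsb; exact absurd hsb (by decide)
  · have := Fintype.mem_piFinset.1 hψ r
    simp only [sb, st, wd, hs.symm, if_true, if_false, or_true, ne_eq, not_false_eq_true,
      decide_true] at this
    exact eq_of_PP (y := inr v) this
  · have := Fintype.mem_piFinset.1 hψ s
    simp only [sb, st, wd, if_true, true_or, ne_eq, not_true, decide_false] at this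
    exact eq_of_PP (y := inl c) this

lemma three {V : Type} [Fintype V] {n : ℕ} {L : Finset V} {φ : Fin n → V} (x a b : Fin n)
    (h1 : x ≠ a) (h2 : x ≠ b) (h3 : a ≠ b) (k1 : φ x ∈ L) (k2 : φ a ∈ L) (k3 : φ b ∈ L) :
    φ ∈ many (Fin n) L 3 := by
  apply mem_many {x, a, b}
  · rw [card_insert_of_notMem (by simp [h1, h2]), card_pair h3]
  · intro y hy
    simp only [mem_insert, mem_singleton] at hy
    rcases hy with rfl | rfl | rfl <;> assumption

lemma many_lt {V : Type} [Fintype V] {n l c W : ℕ} (L : Finset V) (hn : 3 ≤ n) (hl : 1 ≤ l)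
    (hc : 1 ≤ c) (hL : L.card ≤ l) (hV : Fintype.card V ≤ c * W)
    (hW : 2 ^ n * (l ^ n * c ^ n) < W) : (many (Fin n) L 3).card < W ^ (n - 2) := by
  refine (many_card L 3).trans_lt ?_
  rw [Fintype.card_fin]
  exact num n l c W 2 _ _ hl hc hn hL hV hW

def A0 (D m c i : ℕ) : Prop :=
  ¬ ((i = 1 ∧ c = 0) ∨ (i = 2 ∧ c = 1) ∨ (3 ≤ i ∧ i ≤ D ∧ c = i) ∨ (i = D + 1 ∧ c ≤ 1) ∨
    (i = D + 2 ∧ (c = 0 ∨ c = 2)) ∨ (D + 3 ≤ i ∧ c + D < i ∧ ¬ (i + 1 = D + m ∧ c = D)))

lemma caseB0 {n : ℕ} {F : SimpleGraph (Fin n)} {r s t s0 : Fin n} (hr : ∀ a, a ≠ r → F.Adj r a)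
    (hs : s ≠ r) (ht : t ≠ r) (hst : F.Adj s t) (h0 : s0 ≠ r) (h0' : ∀ a, F.Adj s0 a → a = r)
    (z : ℕ) : ∃ (m : ℕ) (G' : SimpleGraph (Fin m)), z ≤ m ∧ Injective (rdeg F r G') := by
  have hn : 3 ≤ n := by
    have : ({r, s, t} : Finset (Fin n)) ⊆ univ := subset_univ _
    have := card_le_card this
    rw [card_insert_of_notMem (by simp [hs.symm, ht.symm]), card_pair hst.ne] at this
    simpa using this
  obtain ⟨D, hD⟩ : ∃ D, D = n + 5 := ⟨_, rfl⟩
  obtain ⟨W, hW, hW2⟩ : ∃ W, 2 ^ n * ((3 * D + 3) ^ n * (2 * n + 7) ^ n) < W ∧ 3 * D + 3 + z < W :=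
    ⟨2 ^ n * ((3 * D + 3) ^ n * (2 * n + 7) ^ n) + (3 * D + 3 + z) + 1, by omega, by omega⟩
  obtain ⟨M, hM⟩ : ∃ M, M = (n + 2) * W := ⟨_, rfl⟩
  have hMW : W ≤ M := by have := bl_le W r; omega
  obtain ⟨m, hm⟩ : ∃ m, m = M + W := ⟨_, rfl⟩
  have hN : ∀ c : Fin m, n + 2 ≤ (NC (A0 D m) m (D + m) c).card := by
    intro c
    apply NC_ge c (n + 2) (fun j => if j + 3 = c.val then 0 else j + 3)
    · intro j hj
      simp only [A0]
      split_ifs <;> omega
    · intro i hi j hj
      split_ifs <;> intro e <;> first | omega | exact e.elim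
  apply transferR F r (GA (A0 D m) m (D + m)) z (by simp; omega)
  apply chain
  · intro a b hab
    have hb := b.2
    by_cases h1 : a.val < D + 1
    · by_cases h2 : a.val = 0
      · exact colSwap hr hs hN a b 2 1 (D + 2) (by omega) (by omega) (by omega)
          (by unfold A0; intros; omega) (by unfold A0; intros; omega) (by unfold A0; intros; omega)
          (by unfold A0; intros; omega) (by unfold A0; intros; omega) (by omega) (by omega)
      by_cases h3 : a.val = 1
      · exact colSwap hr hs hN a b (D + 2) 2 (D + 1) (by omega) (by omega) (by omega)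
          (by unfold A0; intros; omega) (by unfold A0; intros; omega) (by unfold A0; intros; omega)
          (by unfold A0; intros; omega) (by unfold A0; intros; omega) (by omega) (by omega)
      by_cases h4 : a.val = 2
      · exact colSwap hr hs hN a b 3 (D + 2) (D + 3) (by omega) (by omega) (by omega)
          (by unfold A0; intros; omega) (by unfold A0; intros; omega) (by unfold A0; intros; omega)
          (by unfold A0; intros; omega) (by unfold A0; intros; omega) (by omega) (by omega)
      by_cases h5 : a.val = D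
      · exact colSwap hr hs hN a b (D + m - 1) D (D + D + 1) (by omega) (by omega) (by omega)
          (by unfold A0; intros; omega) (by unfold A0; intros; omega) (by unfold A0; intros; omega)
          (by unfold A0; intros; omega) (by unfold A0; intros; omega) (by omega) (by omega)
      by_cases h6 : a.val + 1 = D
      · exact colSwap hr hs hN a b D (D - 1) (D + D) (by omega) (by omega) (by omega)
          (by unfold A0; intros; omega) (by unfold A0; intros; omega) (by unfold A0; intros; omega)
          (by unfold A0; intros; omega) (by unfold A0; intros; omega) (by omega) (by omega)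
      · exact colSwap hr hs hN a b (a.val + 1) a.val (D + a.val + 1) (by omega) (by omega)
          (by omega)
          (by unfold A0; intros; omega) (by unfold A0; intros; omega) (by unfold A0; intros; omega)
          (by unfold A0; intros; omega) (by unfold A0; intros; omega) (by omega) (by omega)
    · exact colNest hr hs hN a b (by unfold A0; intros; omega) (D + b.val) (by omega)
        (by unfold A0; intros; omega) (by unfold A0; intros; omega)
  · intro v u huv
    have hu := u.2
    by_cases h1 : v.val = 0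
    · exact rowNest hr hs hN u v (by unfold A0; intros; omega) 0 (by omega)
        (by unfold A0; intros; omega) (by unfold A0; intros; omega)
    by_cases h2 : v.val = 1
    · exact rowSwap hr hs ht hst hN u v 0 1 (D + 2) (by omega) (by omega) (by omega)
        (by unfold A0; intros; omega) (by unfold A0; intros; omega) (by unfold A0; intros; omega)
        (by unfold A0; intros; omega) (by unfold A0; intros; omega) (by omega) (by omega)
        (by unfold A0; intros; omega) (by unfold A0; intros; omega)
    by_cases h3 : v.val = 2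
    · exact rowSwap hr hs ht hst hN u v 1 3 (D + 1) (by omega) (by omega) (by omega)
        (by unfold A0; intros; omega) (by unfold A0; intros; omega) (by unfold A0; intros; omega)
        (by unfold A0; intros; omega) (by unfold A0; intros; omega) (by omega) (by omega)
        (by unfold A0; intros; omega) (by unfold A0; intros; omega)
    by_cases h4 : v.val < D
    · exact rowSwap hr hs ht hst hN u v v.val u.val (D + u.val) (by omega) (by omega) (by omega)
        (by unfold A0; intros; omega) (by unfold A0; intros; omega) (by unfold A0; intros; omega)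
        (by unfold A0; intros; omega) (by unfold A0; intros; omega) (by omega) (by omega)
        (by unfold A0; intros; omega) (by unfold A0; intros; omega)
    by_cases h5 : v.val = D
    · obtain ⟨Gd, g1, g2⟩ := fam (A := A0 D m) (W := W) F r s0 h0 v (⟨1, by omega⟩ : Fin m) (D + 2)
        (by omega) (by omega) (show A0 D m 1 v by unfold A0; omega) (Or.inl h0')
      let cD : Fin m := ⟨D, by omega⟩
      let c0 : Fin m := ⟨0, by omega⟩
      let π : Fin m ⊕ Fin (D + m) → Fin m ⊕ Fin (D + m) := Sum.map id (Equiv.swap u v)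
      let π' : Fin m ⊕ Fin (D + m) → Fin m ⊕ Fin (D + m) :=
        Sum.map (Equiv.swap cD c0) (Equiv.swap u v)
      let L : Finset (Fin m ⊕ Fin (D + m)) := PP m (D + m) false D 1 ∪
        (PP m (D + m) true 0 (2 * D + 1) ∪ PP m (D + m) true (D + m - 1) 1)
      have hL : L.card ≤ 3 * D + 3 := by
        have e1 := PP_le (m := m) (q := D + m) false D 1
        have e2 := PP_le (m := m) (q := D + m) true 0 (2 * D + 1)
        have e3 := PP_le (m := m) (q := D + m) true (D + m - 1) 1
        have e4 := card_union_le (PP m (D + m) true 0 (2 * D + 1)) (PP m (D + m) true (D + m - 1) 1)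
        have e5 := card_union_le (PP m (D + m) false D 1)
          (PP m (D + m) true 0 (2 * D + 1) ∪ PP m (D + m) true (D + m - 1) 1)
        simp only [L]; omega
      have sw : ∀ x : Fin (D + m), (Equiv.swap u v x).val =
          if x.val = D + 1 then D else if x.val = D then D + 1 else x.val := by
        intro x
        rw [Equiv.swap_apply_def]
        simp only [Fin.ext_iff]
        split_ifs <;> omega
      have sw' : ∀ x : Fin m, (Equiv.swap cD c0 x).val =
          if x.val = D then 0 else if x.val = 0 then D else x.val := by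
        intro x
        rw [Equiv.swap_apply_def]
        simp only [Fin.ext_iff, cD, c0]
        split_ifs <;> first | omega | rfl
      apply cmp2 π π' (by rintro (x | x) <;> simp [π]) (by rintro (x | x) <;> simp [π'])
        (by simp [π]) (by simp [π']) (many (Fin n) L 3) Gd
      · rintro φ k1 k2 k3 ⟨a, b, hab, k4⟩
        have hcol : ∀ (x : Fin n) (y : Fin m), φ x = inl y → A0 D m y u := by
          intro x y e
          have : x ≠ r := by rintro rfl; rw [k2] at e; simp at e
          have := k1.2 _ _ (hr x this)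
          rwa [k2, e] at this
        have key : ∀ p : Fin m → Fin m, (∀ (x y : Fin n) (x' : Fin m) (y' : Fin (D + m)),
            F.Adj x y → φ x = inl x' → φ y = inr y' → A0 D m (p x') (Equiv.swap u v y')) →
            ¬ Brk F (GA (A0 D m) m (D + m)) (Sum.map p (Equiv.swap u v)) φ := by
          rintro p hp ⟨x, y, hxy, k5⟩
          apply k5
          have k6 := k1.2 _ _ hxy
          rcases hx : φ x with x' | x' <;> rcases hy : φ y with y' | y' <;> rw [hx, hy] at k6
          · exact k6.elim
          · exact hp x y x' y' hxy hx hy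
          · exact hp y x y' x' hxy.symm hy hx
          · exact fun k => k6 (congrArg Fin.val ((Equiv.swap u v).injective (Fin.ext k)))
        obtain ⟨x0, hx0⟩ : ∃ x0, φ x0 = inl cD := by
          by_contra hne
          refine key id ?_ ⟨a, b, hab, k4⟩
          intro x y x' y' hxy hx hy
          have k6 := k1.2 _ _ hxy
          rw [hx, hy] at k6
          have k7 := hcol x x' hx
          have k8 : x'.val ≠ D := fun e => hne ⟨x, by rw [hx]; exact congrArg inl (Fin.ext e)⟩
          have := y'.2
          simp only [GA_lr, id, sw, A0] at k6 k7 ⊢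
          split_ifs <;> omega
        have x0r : x0 ≠ r := by rintro rfl; rw [k2] at hx0; simp at hx0
        refine ⟨key _ ?_, r, x0, hr _ x0r, ?_⟩
        · intro x y x' y' hxy hx hy
          have k6 := k1.2 _ _ hxy
          rw [hx, hy] at k6
          have k7 := hcol x x' hx
          have := y'.2
          by_cases k8 : x'.val = D
          · by_cases k9 : y = r
            · rw [k9, k2] at hy
              rw [← inr.inj hy]
              simp only [sw, sw', A0]
              split_ifs <;> omega
            · exfalso; apply k3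
              have xr : x ≠ r := by rintro rfl; rw [k2] at hx; simp at hx
              refine three r x y xr.symm (Ne.symm k9) hxy.ne ?_ ?_ ?_ <;>
                simp only [L, mem_union, mem_PP, k2, hx, hy, vl_l, vl_r, isRight_inl, isRight_inr,
                  true_and, GA_lr, A0] at k6 ⊢ <;> simp <;> omega
          · simp only [GA_lr, sw, sw', A0] at k6 k7 ⊢
            split_ifs <;> omega
        · simp only [comp_apply, k2, hx0, π, π', Sum.map_inr, Sum.map_inl, Equiv.swap_apply_left,
            Equiv.swap_apply_right, id, GA_rl, c0, A0]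
          omega
      · intro ψ hψ
        obtain ⟨k1, k2, k3⟩ := g2 ψ hψ
        refine ⟨k1, k2, ⟨r, s0, hr _ h0, ?_⟩, ⟨r, s0, hr _ h0, ?_⟩⟩
        · simp only [k2, k3, π, Sum.map_inr, Sum.map_inl, Equiv.swap_apply_right, id, GA_rl, A0]
          omega
        · simp only [k2, k3, π', Sum.map_inr, Sum.map_inl, Equiv.swap_apply_right, GA_rl, sw']
          rw [if_neg (by omega), if_neg (by omega)]
          unfold A0; omega
      · rw [g1]
        refine many_lt L hn (by omega) (by omega) hL ?_ hW
        simp only [Fintype.card_sum, Fintype.card_fin]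
        have : (2 * n + 7) * W = 2 * ((n + 2) * W) + 3 * W := by ring
        omega
    by_cases h6 : v.val = D + 1
    · exact rowSwap hr hs ht hst hN u v 1 2 2 (by omega) (by omega) (by omega)
        (by unfold A0; intros; omega) (by unfold A0; intros; omega) (by unfold A0; intros; omega)
        (by unfold A0; intros; omega) (by unfold A0; intros; omega) (by omega) (by omega)
        (by unfold A0; intros; omega) (by unfold A0; intros; omega)
    by_cases h7 : v.val = D + 2
    · exact rowNest hr hs hN u v (by unfold A0; intros; omega) 1 (by omega)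
        (by unfold A0; intros; omega) (by unfold A0; intros; omega)
    by_cases h8 : u.val + 1 = D + m
    · exact rowSwap hr hs ht hst hN u v D (m - 2) D (by omega) (by omega) (by omega)
        (by unfold A0; intros; omega) (by unfold A0; intros; omega) (by unfold A0; intros; omega)
        (by unfold A0; intros; omega) (by unfold A0; intros; omega) (by omega) (by omega)
        (by unfold A0; intros; omega) (by unfold A0; intros; omega)
    · exact rowNest hr hs hN u v (by unfold A0; intros; omega) (v.val - D) (by omega)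
        (by unfold A0; intros; omega) (by unfold A0; intros; omega)
  · intro a b ha hb
    exact junction hr hs hN a b D (by omega) (by unfold A0; intros; omega) (by omega)

end Pool.Agent.H.MP_c25556_co
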