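import Pool.Agent.H.MP_c25556_co.B

set_option autoImplicit false

namespace Pool.Agent.H.MP_c25556_co

open Finset Function Sum
open Pool.Agent.H.MP_bf8eef_co (IsC many many_card mem_many pool pool_card num edge_copy bl bl_ge bl_le bl_ne)
open scoped Classical

def A1 (S g c i : ℕ) : Prop :=
  ¬ ((1 ≤ i ∧ i ≤ 5 * S ∧ (((i - 1) % 5 = 0 ∧ c < 3 * ((i - 1) / 5) + 1) ∨
      ((i - 1) % 5 = 1 ∧ c < 3 * ((i - 1) / 5) + 2) ∨
      ((i - 1) % 5 = 2 ∧ (c < 3 * ((i - 1) / 5) + 1 ∨ c = 3 * ((i - 1) / 5) + 2)) ∨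
      ((i - 1) % 5 = 3 ∧ c < 3 * ((i - 1) / 5) + 3) ∨
      ((i - 1) % 5 = 4 ∧ (c < 3 * ((i - 1) / 5) + 2 ∨ c = 3 * ((i - 1) / 5) + 3)))) ∨
    (5 * S < i ∧ i < g + 2 * S ∧ c + 2 * S < i) ∨
    (g + 2 * S ≤ i ∧ 9 * S + 3 * g < c + 3 * i + 3 ∧ c + 2 * S < i))

section spec
variable {S g : ℕ} (hg : 3 * S < g)
include hg

lemma b0 (c : ℕ) : A1 S g c 0 ↔ 0 ≤ c := by unfold A1; omega
lemma b1 {k i : ℕ} (hk : k < S) (hi : i = 5 * k + 1) (c : ℕ) : A1 S g c i ↔ 3 * k + 1 ≤ c := by
  subst hi; unfold A1; omega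
lemma b2 {k i : ℕ} (hk : k < S) (hi : i = 5 * k + 2) (c : ℕ) : A1 S g c i ↔ 3 * k + 2 ≤ c := by
  subst hi; unfold A1; omega
lemma b3 {k i : ℕ} (hk : k < S) (hi : i = 5 * k + 3) (c : ℕ) :
    A1 S g c i ↔ 3 * k + 1 ≤ c ∧ c ≠ 3 * k + 2 := by
  subst hi; unfold A1; omega
lemma b4 {k i : ℕ} (hk : k < S) (hi : i = 5 * k + 4) (c : ℕ) : A1 S g c i ↔ 3 * k + 3 ≤ c := by
  subst hi; unfold A1; omega
lemma b5 {k i : ℕ} (hk : k < S) (hi : i = 5 * k + 5) (c : ℕ) :
    A1 S g c i ↔ 3 * k + 2 ≤ c ∧ c ≠ 3 * k + 3 := by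
  subst hi; unfold A1; omega
omit hg in
lemma b6 {i : ℕ} (h : 5 * S < i) (h' : i < g + 2 * S) (c : ℕ) : A1 S g c i ↔ i ≤ c + 2 * S := by
  unfold A1; omega
lemma b7 {i : ℕ} (h : g + 2 * S ≤ i) (c : ℕ) :
    A1 S g c i ↔ c + 3 * i + 3 ≤ 9 * S + 3 * g ∨ i ≤ c + 2 * S := by
  unfold A1; omega

lemma spec (i : ℕ) : (i = 0 ∧ ∀ c, A1 S g c i ↔ 0 ≤ c) ∨
    (∃ k, k < S ∧ ((i = 5 * k + 1 ∧ ∀ c, A1 S g c i ↔ 3 * k + 1 ≤ c) ∨
      (i = 5 * k + 2 ∧ ∀ c, A1 S g c i ↔ 3 * k + 2 ≤ c) ∨
      (i = 5 * k + 3 ∧ ∀ c, A1 S g c i ↔ 3 * k + 1 ≤ c ∧ c ≠ 3 * k + 2) ∨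
      (i = 5 * k + 4 ∧ ∀ c, A1 S g c i ↔ 3 * k + 3 ≤ c) ∨
      (i = 5 * k + 5 ∧ ∀ c, A1 S g c i ↔ 3 * k + 2 ≤ c ∧ c ≠ 3 * k + 3))) ∨
    ((5 * S < i ∧ i < g + 2 * S) ∧ ∀ c, A1 S g c i ↔ i ≤ c + 2 * S) ∨
    (g + 2 * S ≤ i ∧ ∀ c, A1 S g c i ↔ c + 3 * i + 3 ≤ 9 * S + 3 * g ∨ i ≤ c + 2 * S) := by
  by_cases h0 : i = 0
  · subst h0; exact Or.inl ⟨rfl, b0 hg⟩
  by_cases h1 : i ≤ 5 * S
  · have hk : (i - 1) / 5 < S := by omega
    refine Or.inr (Or.inl ⟨(i - 1) / 5, hk, ?_⟩)
    have : i = 5 * ((i - 1) / 5) + 1 ∨ i = 5 * ((i - 1) / 5) + 2 ∨ i = 5 * ((i - 1) / 5) + 3 ∨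
      i = 5 * ((i - 1) / 5) + 4 ∨ i = 5 * ((i - 1) / 5) + 5 := by omega
    rcases this with h | h | h | h | h
    · exact Or.inl ⟨h, b1 hg hk h⟩
    · exact Or.inr (Or.inl ⟨h, b2 hg hk h⟩)
    · exact Or.inr (Or.inr (Or.inl ⟨h, b3 hg hk h⟩))
    · exact Or.inr (Or.inr (Or.inr (Or.inl ⟨h, b4 hg hk h⟩)))
    · exact Or.inr (Or.inr (Or.inr (Or.inr ⟨h, b5 hg hk h⟩)))
  by_cases h2 : i < g + 2 * S
  · exact Or.inr (Or.inr (Or.inl ⟨⟨by omega, h2⟩, b6 (by omega) h2⟩))
  · exact Or.inr (Or.inr (Or.inr ⟨by omega, b7 hg (by omega)⟩))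

lemma colstep (a p : ℕ) (h : A1 S g a p) : A1 S g (a + 1) p ∨
    (a + 3 * p + 3 = 9 * S + 3 * g ∧ g + 2 * S ≤ p) ∨
    (∃ k, k < S ∧ ((a = 3 * k + 1 ∧ p = 5 * k + 3) ∨ (a = 3 * k + 2 ∧ p = 5 * k + 5))) := by
  rcases spec hg p with ⟨h1, h2⟩ | ⟨k, hk, ⟨h1, h2⟩ | ⟨h1, h2⟩ | ⟨h1, h2⟩ | ⟨h1, h2⟩ | ⟨h1, h2⟩⟩ |
    ⟨h1, h2⟩ | ⟨h1, h2⟩ <;> rw [h2] at h ⊢
  · omega
  · omega
  · omega
  · by_cases e : a = 3 * k + 1
    · exact Or.inr (Or.inr ⟨k, hk, by omega⟩)
    · left; omega
  · omega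
  · by_cases e : a = 3 * k + 2
    · exact Or.inr (Or.inr ⟨k, hk, by omega⟩)
    · left; omega
  · omega
  · by_cases e : a + 3 * p + 3 = 9 * S + 3 * g
    · exact Or.inr (Or.inl ⟨e, h1⟩)
    · left; omega

lemma colstep' {a b e : ℕ} (hb : b = a + 1)
    (h1 : ∀ p, a + 3 * p + 3 = 9 * S + 3 * g → g + 2 * S ≤ p → p = e)
    (h2 : ∀ k p, k < S → ((a = 3 * k + 1 ∧ p = 5 * k + 3) ∨ (a = 3 * k + 2 ∧ p = 5 * k + 5)) → p = e)
    (p : ℕ) (hp : p ≠ e) (h : A1 S g a p) : A1 S g b p := by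
  subst hb
  rcases colstep hg a p h with k | k | ⟨k, k1, k2⟩
  · exact k
  · exact absurd (h1 p k.1 k.2) hp
  · exact absurd (h2 k p k1 k2) hp

lemma lowrow {c i : ℕ} (hc : c + 3 ≤ 3 * S) (h : A1 S g c i) : i < 5 * S + 1 ∨ g + 2 * S ≤ i := by
  by_contra hne
  rw [b6 (by omega) (by omega)] at h
  omega

end spec

lemma caseB1 {n : ℕ} {F : SimpleGraph (Fin n)} {r s t : Fin n} (hr : ∀ a, a ≠ r → F.Adj r a)
    (hs : s ≠ r) (ht : t ≠ r) (hst : F.Adj s t) (h0 : ∀ a, a ≠ r → ∃ b, F.Adj a b ∧ b ≠ r)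
    (z : ℕ) : ∃ (m : ℕ) (G' : SimpleGraph (Fin m)), z ≤ m ∧ Injective (rdeg F r G') := by
  have hn : 3 ≤ n := by
    have : ({r, s, t} : Finset (Fin n)) ⊆ univ := subset_univ _
    have := card_le_card this
    rw [card_insert_of_notMem (by simp [hs.symm, ht.symm]), card_pair hst.ne] at this
    simpa using this
  obtain ⟨S, hS⟩ : ∃ S, S = n + 2 := ⟨_, rfl⟩
  obtain ⟨W, hW, hW2⟩ : ∃ W, 2 ^ n * ((9 * S + 1) ^ n * (2 * n + 7) ^ n) < W ∧ 9 * S + 1 + z < W :=
    ⟨2 ^ n * ((9 * S + 1) ^ n * (2 * n + 7) ^ n) + (9 * S + 1 + z) + 1, by omega, by omega⟩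
  obtain ⟨M, hM⟩ : ∃ M, M = (n + 2) * W := ⟨_, rfl⟩
  have hMW : W ≤ M := by have := bl_le W r; omega
  obtain ⟨g, hg⟩ : ∃ g, g = M + W := ⟨_, rfl⟩
  have hg3 : 3 * S < g := by omega
  have hN : ∀ c : Fin (g + S), n + 2 ≤ (NC (A1 S g) (g + S) (g + 3 * S) c).card := by
    intro c
    apply NC_ge c (n + 2) (fun j => if c.val ≤ 3 * j then g + 3 * S - 1 - j else 5 * j + 1)
    · intro j hj
      split_ifs
      · rw [b7 hg3 (by omega)]; omega
      · rw [b1 hg3 (k := j) (by omega) rfl]; omega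
    · intro i hi j hj
      split_ifs <;> intro e <;> omega
  apply transferR F r (GA (A1 S g) (g + S) (g + 3 * S)) z (by simp; omega)
  apply chain
  · intro a b hab
    have hb := b.2
    by_cases h1 : a.val < 3 * S
    · obtain ⟨k, hk⟩ : ∃ k, k = a.val / 3 := ⟨_, rfl⟩
      have hk' : k < S := by omega
      by_cases h2 : a.val % 3 = 0
      · exact colSwap hr hs hN a b (g + 3 * S - 1 - k) (5 * k + 1) (5 * k + 3) (by omega) (by omega)
          (by omega) (colstep' hg3 hab (by intros; omega) (by intros; omega))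
          (by rw [b1 hg3 hk' rfl]; omega) (by rw [b1 hg3 hk' rfl]; omega)
          (by rw [b3 hg3 hk' rfl]; omega) (by rw [b3 hg3 hk' rfl]; omega) (by omega) (by omega)
      by_cases h3 : a.val % 3 = 1
      · exact colSwap hr hs hN a b (5 * k + 3) (5 * k + 2) (5 * k + 5) (by omega) (by omega)
          (by omega) (colstep' hg3 hab (by intros; omega) (by intros; omega))
          (by rw [b2 hg3 hk' rfl]; omega) (by rw [b2 hg3 hk' rfl]; omega)
          (by rw [b5 hg3 hk' rfl]; omega) (by rw [b5 hg3 hk' rfl]; omega) (by omega) (by omega)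
      · exact colSwap hr hs hN a b (5 * k + 5) (5 * k + 4) (5 * k + 3) (by omega) (by omega)
          (by omega) (colstep' hg3 hab (by intros; omega) (by intros; omega))
          (by rw [b4 hg3 hk' rfl]; omega) (by rw [b4 hg3 hk' rfl]; omega)
          (by rw [b3 hg3 hk' rfl]; omega) (by rw [b3 hg3 hk' rfl]; omega) (by omega) (by omega)
    · have hA : ∀ c, 3 * S ≤ c → (A1 S g c (b.val + 2 * S) ↔ b.val ≤ c) := by
        intro c hc
        by_cases e : b.val < g
        · rw [b6 (by omega) (by omega)]; omega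
        · rw [b7 hg3 (by omega)]; omega
      refine colNest hr hs hN a b (fun p hp => ?_) (b.val + 2 * S) (by omega)
        ((hA _ (by omega)).2 le_rfl) (by rw [hA _ (by omega)]; omega)
      rw [hab]
      rcases colstep hg3 a p hp with k | k | ⟨k, k1, k2⟩
      · exact k
      · omega
      · omega
  · intro v u huv
    have hu := u.2
    by_cases h1 : v.val = 0
    · have ev := b0 hg3
      rw [← h1] at ev
      have eu := b1 hg3 (k := 0) (i := u.val) (by omega) (by omega)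
      exact rowNest hr hs hN u v (by intro c; rw [ev]; omega) 0 (by omega)
        (by rw [ev]; omega) (by rw [eu]; omega)
    by_cases h2 : v.val ≤ 5 * S
    · obtain ⟨k, hk⟩ : ∃ k, k = (v.val - 1) / 5 := ⟨_, rfl⟩
      have hk' : k < S := by omega
      by_cases h3 : (v.val - 1) % 5 = 0
      · have ev := b1 hg3 (i := v.val) hk' (by omega)
        have eu := b2 hg3 (i := u.val) hk' (by omega)
        exact rowNest hr hs hN u v (by intro c; rw [ev, eu]; omega) (3 * k + 1) (by omega)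
          (by rw [ev]) (by rw [eu]; omega)
      by_cases h4 : (v.val - 1) % 5 = 1
      · have ev := b2 hg3 (i := v.val) hk' (by omega)
        have eu := b3 hg3 (i := u.val) hk' (by omega)
        exact rowSwap hr hs ht hst hN u v (3 * k + 1) (3 * k + 2) (5 * k + 5) (by omega) (by omega)
          (by omega) (by rw [eu]; omega) (by rw [ev]) (by rw [ev]; omega)
          (by intro c; rw [ev, eu]; omega)
          (colstep' hg3 rfl (by intros; omega) (by intros; omega)) (by omega) (by omega)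
          (by rw [b5 hg3 hk' rfl]; omega) (by rw [b5 hg3 hk' rfl]; omega)
      by_cases h5 : (v.val - 1) % 5 = 2
      · have ev := b3 hg3 (i := v.val) hk' (by omega)
        have eu := b4 hg3 (i := u.val) hk' (by omega)
        exact rowNest hr hs hN u v (by intro c; rw [ev, eu]; omega) (3 * k + 1) (by omega)
          (by rw [ev]; omega) (by rw [eu]; omega)
      by_cases h6 : (v.val - 1) % 5 = 3
      · have ev := b4 hg3 (i := v.val) hk' (by omega)
        have eu := b5 hg3 (i := u.val) hk' (by omega)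
        exact rowSwap hr hs ht hst hN u v (3 * k + 2) (3 * k + 3) (5 * k + 3) (by omega) (by omega)
          (by omega) (by rw [eu]; omega) (by rw [ev]) (by rw [ev]; omega)
          (by intro c; rw [ev, eu]; omega)
          (colstep' hg3 rfl (by intros; omega) (by intros; omega)) (by omega) (by omega)
          (by rw [b3 hg3 hk' rfl]; omega) (by rw [b3 hg3 hk' rfl]; omega)
      · have ev := b5 hg3 (i := v.val) hk' (by omega)
        have eu : ∀ c, A1 S g c u ↔ 3 * k + 4 ≤ c := by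
          intro c
          by_cases e : k + 1 < S
          · rw [b1 hg3 e (by omega)]; omega
          · rw [b6 (by omega) (by omega)]; omega
        exact rowNest hr hs hN u v (by intro c; rw [ev, eu]; omega) (3 * k + 2) (by omega)
          (by rw [ev]; omega) (by rw [eu]; omega)
    by_cases h5 : u.val = g + 2 * S
    · obtain ⟨Gd, g1, g2⟩ := fam (A := A1 S g) (W := W) F r s hs v
        (⟨g - 1, by omega⟩ : Fin (g + S)) (5 * S + 1)
        (by omega) (by omega) (show A1 S g (g - 1) v by rw [b6 (by omega) (by omega)]; omega)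
        (Or.inr (fun p h1 h2 => show A1 S g (g - 1) p by rw [b6 (by omega) (by omega)]; omega))
      let π : Fin (g + S) ⊕ Fin (g + 3 * S) → Fin (g + S) ⊕ Fin (g + 3 * S) :=
        Sum.map id (Equiv.swap u v)
      let L : Finset (Fin (g + S) ⊕ Fin (g + 3 * S)) := PP (g + S) (g + 3 * S) false 0 (3 * S) ∪
        (PP (g + S) (g + 3 * S) true 0 (5 * S + 1) ∪ PP (g + S) (g + 3 * S) true (g + 2 * S) S)
      have hL : L.card ≤ 9 * S + 1 := by
        have e1 := PP_le (m := g + S) (q := g + 3 * S) false 0 (3 * S)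
        have e2 := PP_le (m := g + S) (q := g + 3 * S) true 0 (5 * S + 1)
        have e3 := PP_le (m := g + S) (q := g + 3 * S) true (g + 2 * S) S
        have e4 := card_union_le (PP (g + S) (g + 3 * S) true 0 (5 * S + 1))
          (PP (g + S) (g + 3 * S) true (g + 2 * S) S)
        have e5 := card_union_le (PP (g + S) (g + 3 * S) false 0 (3 * S))
          (PP (g + S) (g + 3 * S) true 0 (5 * S + 1) ∪ PP (g + S) (g + 3 * S) true (g + 2 * S) S)
        simp only [L]; omega
      have sw : ∀ x : Fin (g + 3 * S), (Equiv.swap u v x).val =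
          if x.val = u.val then v.val else if x.val = v.val then u.val else x.val := by
        intro x
        rw [Equiv.swap_apply_def]
        simp only [Fin.ext_iff]
        split_ifs <;> rfl
      apply cmp1 π (by rintro (x | x) <;> simp [π]) (by simp [π]) (many (Fin n) L 3) Gd
      · rintro φ k1 k2 ⟨a, b, hab, k4⟩
        have hcol : ∀ (x : Fin n) (y : Fin (g + S)), φ x = inl y → A1 S g y u := by
          intro x y e
          have : x ≠ r := by rintro rfl; rw [k2] at e; simp at e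
          have := k1.2 _ _ (hr x this)
          rwa [k2, e] at this
        have key : ∀ (x y : Fin n) (x' : Fin (g + S)) (y' : Fin (g + 3 * S)), F.Adj x y →
            φ x = inl x' → φ y = inr y' → ¬ A1 S g x' (Equiv.swap u v y') →
            φ ∈ many (Fin n) L 3 := by
          intro x y x' y' hxy hx hy k5
          have k6 := k1.2 _ _ hxy
          rw [hx, hy, GA_lr] at k6
          have k7 := hcol x x' hx
          have k8 : x'.val + 3 ≤ 3 * S := by
            rw [sw] at k5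
            split_ifs at k5 with m1 m2
            · rw [b6 (by omega) (by omega)] at k5
              rw [b7 hg3 (by omega)] at k7
              omega
            · exact absurd k7 k5
            · exact absurd k6 k5
          have xr : x ≠ r := by rintro rfl; rw [k2] at hx; simp at hx
          obtain ⟨y0, m1, m2⟩ := h0 x xr
          have m3 := k1.2 _ _ m1
          rw [hx] at m3
          refine three r x y0 xr.symm m2.symm m1.ne ?_ ?_ ?_
          · simp only [L, mem_union, mem_PP, k2, vl_r, isRight_inr, true_and]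
            right; right; omega
          · simp only [L, mem_union, mem_PP, hx, vl_l, isRight_inl, true_and]
            left; omega
          · rcases hy0 : φ y0 with w | w
            · rw [hy0] at m3; exact m3.elim
            · rw [hy0, GA_lr] at m3
              have := w.2
              simp only [L, mem_union, mem_PP, vl_r, isRight_inr, true_and]
              right
              have := lowrow hg3 k8 m3
              omega
        have k6 := k1.2 _ _ hab
        rcases hx : φ a with x' | x' <;> rcases hy : φ b with y' | y' <;> rw [hx, hy] at k6 k4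
        · exact k6.elim
        · exact key a b x' y' hab hx hy k4
        · exact key b a y' x' hab.symm hy hx k4
        · exact absurd (fun k => k6 (congrArg Fin.val ((Equiv.swap u v).injective (Fin.ext k)))) k4
      · intro ψ hψ
        obtain ⟨k1, k2, k3⟩ := g2 ψ hψ
        refine ⟨k1, k2, ⟨r, s, hr _ hs, ?_⟩⟩
        simp only [k2, k3, π, Sum.map_inr, Sum.map_inl, Equiv.swap_apply_right, id, GA_rl]
        rw [b7 hg3 (by omega)]; omega
      · rw [g1]
        refine many_lt L hn (by omega) (by omega) hL ?_ hW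
        simp only [Fintype.card_sum, Fintype.card_fin]
        have : (2 * n + 7) * W = 2 * ((n + 2) * W) + 3 * W := by ring
        omega
    by_cases h6 : u.val < g + 2 * S
    · have ev := b6 (S := S) (g := g) (i := v.val) (by omega) (by omega)
      have eu := b6 (S := S) (g := g) (i := u.val) (by omega) (by omega)
      exact rowNest hr hs hN u v (by intro c; rw [ev, eu]; omega) (v.val - 2 * S) (by omega)
        (by rw [ev]; omega) (by rw [eu]; omega)
    · have ev := b7 hg3 (i := v.val) (by omega)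
      have eu := b7 hg3 (i := u.val) (by omega)
      exact rowNest hr hs hN u v (by intro c; rw [ev, eu]; omega) (v.val - 2 * S) (by omega)
        (by rw [ev]; omega) (by rw [eu]; omega)
  · intro a b ha hb
    exact junction hr hs hN a b 0 (by omega) (by rw [b7 hg3 (by omega)]; omega) (by omega)

end Pool.Agent.H.MP_c25556_co
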