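import Pool.Agent.H.MP_c25556_co.B

set_option autoImplicit false

namespace Pool.Agent.H.MP_c25556_co

open Finset Function Sum
open Pool.Agent.H.MP_bf8eef_co (IsC many many_card mem_many pool pool_card num edge_copy bl bl_ge bl_le bl_ne)
open scoped Classical

/-- three special roles, one class of roles in a first region of rows, the rest in a second one -/
lemma famT {A : ℕ → ℕ → Prop} {m q n : ℕ} (F : SimpleGraph (Fin n)) (r s t : Fin n)
    (hrs : r ≠ s) (hrt : r ≠ t) (hst : s ≠ t) (hrt' : ¬ F.Adj r t) (T : Finset (Fin n))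
    (hr : r ∉ T) (hs : s ∉ T) (ht : t ∉ T) (v : Fin m) (b : Fin q) (x wx o1 W1 o2 W2 : ℕ)
    (h1 : v.val < x) (h2 : x + wx ≤ m) (h3 : o1 + (n + 2) * W1 ≤ q) (h4 : o2 + (n + 2) * W2 ≤ q)
    (h5 : b.val < o1 ∨ o1 + (n + 2) * W1 ≤ b.val) (h6 : b.val < o2 + W2)
    (h7 : o1 + (n + 2) * W1 ≤ o2 ∨ o2 + (n + 2) * W2 ≤ o1)
    (k1 : A v b) (k2 : ∀ y, x ≤ y → y < x + wx → A y b)
    (k3 : ∀ p, o1 ≤ p → p < o1 + (n + 2) * W1 → A v p)
    (k4 : ∀ y p, x ≤ y → y < x + wx → o1 ≤ p → p < o1 + (n + 2) * W1 → A y p)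
    (k5 : ∀ a, F.Adj r a → a = s ∨ a ∈ T)
    (k6 : (∀ a, F.Adj t a → a = s ∨ a ∈ T) ∨
      ∀ y p, x ≤ y → y < x + wx → o2 ≤ p → p < o2 + (n + 2) * W2 → A y p) :
    ∃ Gd : Finset (Fin n → Fin m ⊕ Fin q),
      Gd.card = wx * W1 ^ T.card * W2 ^ (n - (3 + T.card)) ∧
      ∀ ψ ∈ Gd, IsC F (GA A m q) ψ ∧ ψ r = inl v ∧ ψ s = inr b ∧
        ∃ y : Fin m, ψ t = inl y ∧ x ≤ y.val ∧ y.val < x + wx := by
  let sb : Fin n → Bool := fun a => decide (a ≠ r ∧ a ≠ t)
  let st : Fin n → ℕ := fun a => if a = r then v.val else if a = s then b.val else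
    if a = t then x else if a ∈ T then o1 + bl W1 a else o2 + bl W2 a
  let wd : Fin n → ℕ := fun a => if a = r ∨ a = s then 1 else if a = t then wx else
    if a ∈ T then W1 else W2
  have hcs : ∀ a, (a = r ∧ sb a = false ∧ st a = v.val ∧ wd a = 1) ∨
      (a = s ∧ sb a = true ∧ st a = b.val ∧ wd a = 1) ∨
      (a = t ∧ sb a = false ∧ st a = x ∧ wd a = wx) ∨
      (a ∈ T ∧ sb a = true ∧ st a = o1 + bl W1 a ∧ wd a = W1) ∨
      ((a ≠ r ∧ a ≠ s ∧ a ≠ t ∧ a ∉ T) ∧ sb a = true ∧ st a = o2 + bl W2 a ∧ wd a = W2) := by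
    intro a
    by_cases k1 : a = r
    · left; simp [sb, st, wd, k1]
    by_cases k2 : a = s
    · right; left; subst k2; simp [sb, st, wd, k1, hst]
    by_cases k3 : a = t
    · right; right; left; subst k3; simp [sb, st, wd, k1, k2]
    by_cases k4 : a ∈ T
    · right; right; right; left; simp [sb, st, wd, k1, k2, k3, k4]
    · right; right; right; right; simp [sb, st, wd, k1, k2, k3, k4]
  refine ⟨Fintype.piFinset (fun a => PP m q (sb a) (st a) (wd a)), ?_,
    fun ψ hψ => ⟨?_, ?_, ?_, ?_⟩⟩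
  · have hc : ∀ a, (PP m q (sb a) (st a) (wd a)).card = wd a := by
      intro a
      have := v.2
      have := b.2
      have e1 := bl_le W1 a
      have e2 := bl_le W2 a
      rcases hcs a with ⟨a1, a2, a3, a4⟩ | ⟨a1, a2, a3, a4⟩ | ⟨a1, a2, a3, a4⟩ | ⟨a1, a2, a3, a4⟩ |
        ⟨a1, a2, a3, a4⟩ <;> exact PP_card _ (by simp [a2]; omega)
    rw [Fintype.card_piFinset, prod_congr rfl (fun a _ => hc a),
      prod4 {r, s} {t} T (by simp [hrt.symm, hst.symm]) (by simp [hr, hs]) (by simp [ht]) wd wx W1 W2]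
    · simp [card_pair hrs]
    · intro a ha
      simp only [mem_insert, mem_singleton] at ha
      simp [wd, ha]
    · intro a ha
      rw [mem_singleton] at ha
      subst ha
      simp [wd, hrt.symm, hst.symm]
    · intro a ha
      have a1 : a ≠ r := fun e => hr (e ▸ ha)
      have a2 : a ≠ s := fun e => hs (e ▸ ha)
      have a3 : a ≠ t := fun e => ht (e ▸ ha)
      simp [wd, a1, a2, a3, ha]
    · intro a a1 a2 a3
      simp only [mem_insert, mem_singleton, not_or] at a1 a2
      simp [wd, a1, a2, a3]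
  · refine pool2 sb st wd ?_ ?_ ψ hψ
    · intro a b hab hsb
      have e1 := bl_le W1 a
      have e2 := bl_le W1 b
      have e3 := bl_ne W1 hab
      have e4 := bl_le W2 a
      have e5 := bl_le W2 b
      have e6 := bl_ne W2 hab
      have e7 := bl_ge W2 a
      have e8 := bl_ge W2 b
      rcases hcs a with ⟨a1, a2, a3, a4⟩ | ⟨a1, a2, a3, a4⟩ | ⟨a1, a2, a3, a4⟩ | ⟨a1, a2, a3, a4⟩ |
        ⟨a1, a2, a3, a4⟩ <;>
      rcases hcs b with ⟨b1, b2, b3, b4⟩ | ⟨b1, b2, b3, b4⟩ | ⟨b1, b2, b3, b4⟩ | ⟨b1, b2, b3, b4⟩ |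
        ⟨b1, b2, b3, b4⟩ <;>
      first
        | exact absurd (a1.trans b1.symm) hab
        | (rw [a2, b2] at hsb; exact absurd hsb (by decide))
        | omega
    · intro a c hab hsb
      have e2 := bl_le W1 c
      have e5 := bl_le W2 c
      rcases hcs a with ⟨a1, a2, a3, a4⟩ | ⟨a1, a2, a3, a4⟩ | ⟨a1, a2, a3, a4⟩ | ⟨a1, a2, a3, a4⟩ |
        ⟨a1, a2, a3, a4⟩
      · subst a1
        rcases hcs c with ⟨b1, b2, b3, b4⟩ | ⟨b1, b2, b3, b4⟩ | ⟨b1, b2, b3, b4⟩ |
          ⟨b1, b2, b3, b4⟩ | ⟨b1, b2, b3, b4⟩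
        · exact absurd b1.symm hab.ne
        · refine ⟨b2, fun y p m1 m2 m3 m4 => ?_⟩
          obtain rfl : y = v.val := by omega
          obtain rfl : p = b.val := by omega
          exact k1
        · exact absurd (b1 ▸ hab) hrt'
        · refine ⟨b2, fun y p m1 m2 m3 m4 => ?_⟩
          obtain rfl : y = v.val := by omega
          exact k3 p (by omega) (by omega)
        · rcases k5 c hab with h | h
          · exact absurd h b1.2.1
          · exact absurd h b1.2.2.2
      · rw [a2] at hsb; exact absurd hsb (by decide)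
      · subst a1
        rcases hcs c with ⟨b1, b2, b3, b4⟩ | ⟨b1, b2, b3, b4⟩ | ⟨b1, b2, b3, b4⟩ |
          ⟨b1, b2, b3, b4⟩ | ⟨b1, b2, b3, b4⟩
        · exact absurd (b1 ▸ hab.symm) hrt'
        · refine ⟨b2, fun y p m1 m2 m3 m4 => ?_⟩
          obtain rfl : p = b.val := by omega
          exact k2 y (by omega) (by omega)
        · exact absurd b1.symm hab.ne
        · exact ⟨b2, fun y p m1 m2 m3 m4 => k4 y p (by omega) (by omega) (by omega) (by omega)⟩
        · rcases k6 with k6 | k6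
          · rcases k6 c hab with h | h
            · exact absurd h b1.2.1
            · exact absurd h b1.2.2.2
          · exact ⟨b2, fun y p m1 m2 m3 m4 => k6 y p (by omega) (by omega) (by omega) (by omega)⟩
      · rw [a2] at hsb; exact absurd hsb (by decide)
      · rw [a2] at hsb; exact absurd hsb (by decide)
  · have := Fintype.mem_piFinset.1 hψ r
    simp only [sb, st, wd, if_true, true_or, ne_eq, not_true, false_and, decide_false] at this
    exact eq_of_PP (y := inl v) this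
  · have := Fintype.mem_piFinset.1 hψ s
    simp only [sb, st, wd, hrs.symm, hst, if_true, if_false, or_true, ne_eq, not_false_eq_true,
      and_self, decide_true] at this
    exact eq_of_PP (y := inr b) this
  · have := Fintype.mem_piFinset.1 hψ t
    simp only [sb, st, wd, hrt.symm, hst.symm, if_true, if_false, or_self, ne_eq, not_true,
      and_false, decide_false, mem_PP] at this
    rcases h : ψ t with y | y
    · rw [h] at this; exact ⟨y, rfl, this.2⟩
    · rw [h] at this; simp at this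

/-- one prescribed row, one role in a block of columns, the rest in a region of rows -/
lemma famW {A : ℕ → ℕ → Prop} {m q n : ℕ} (F : SimpleGraph (Fin n)) (r s : Fin n) (hs : s ≠ r)
    (v : Fin q) (c wc o W : ℕ) (hv : v.val < o ∨ o + (n + 2) * W ≤ v.val + W)
    (hq : o + (n + 2) * W ≤ q) (hc : c + wc ≤ m) (h1 : ∀ y, c ≤ y → y < c + wc → A y v)
    (h2 : ∀ y p, c ≤ y → y < c + wc → o ≤ p → p < o + (n + 2) * W → A y p) :
    ∃ Gd : Finset (Fin n → Fin m ⊕ Fin q), Gd.card = wc * W ^ (n - 2) ∧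
      ∀ ψ ∈ Gd, IsC F (GA A m q) ψ ∧ ψ r = inr v ∧
        (∃ y : Fin m, ψ s = inl y ∧ c ≤ y.val ∧ y.val < c + wc) ∧
        ∀ a, a ≠ r → a ≠ s → ∃ p : Fin q, ψ a = inr p ∧ o ≤ p.val ∧ p.val < o + (n + 2) * W := by
  let sb : Fin n → Bool := fun a => decide (a ≠ s)
  let st : Fin n → ℕ := fun a => if a = s then c else if a = r then v.val else o + bl W a
  let wd : Fin n → ℕ := fun a => if a = s then wc else if a = r then 1 else W
  have hcs : ∀ a, (a = s ∧ sb a = false ∧ st a = c ∧ wd a = wc) ∨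
      (a = r ∧ sb a = true ∧ st a = v.val ∧ wd a = 1) ∨
      ((a ≠ s ∧ a ≠ r) ∧ sb a = true ∧ st a = o + bl W a ∧ wd a = W) := by
    intro a
    by_cases k1 : a = s
    · left; simp [sb, st, wd, k1]
    by_cases k2 : a = r
    · right; left; subst k2; simp [sb, st, wd, k1]
    · right; right; simp [sb, st, wd, k1, k2]
  refine ⟨Fintype.piFinset (fun a => PP m q (sb a) (st a) (wd a)), ?_,
    fun ψ hψ => ⟨?_, ?_, ?_, ?_⟩⟩
  · have hc : ∀ a, (PP m q (sb a) (st a) (wd a)).card = wd a := by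
      intro a
      have := v.2
      have e1 := bl_le W a
      rcases hcs a with ⟨a1, a2, a3, a4⟩ | ⟨a1, a2, a3, a4⟩ | ⟨a1, a2, a3, a4⟩ <;>
        exact PP_card _ (by simp [a2]; omega)
    rw [Fintype.card_piFinset, prod_congr rfl (fun a _ => hc a),
      prod4 {r} {s} ∅ (by simp [hs.symm]) (by simp) (by simp) wd wc W W]
    · simp
    · intro a ha
      rw [mem_singleton] at ha
      simp [wd, ha, hs.symm]
    · intro a ha
      rw [mem_singleton] at ha
      simp [wd, ha]
    · simp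
    · intro a a1 a2 _
      rw [mem_singleton] at a1 a2
      simp [wd, a1, a2]
  · refine pool2 sb st wd ?_ ?_ ψ hψ
    · intro a b hab hsb
      have e6 := bl_le W a
      have e7 := bl_le W b
      have e8 := bl_ne W hab
      rcases hcs a with ⟨a1, a2, a3, a4⟩ | ⟨a1, a2, a3, a4⟩ | ⟨a1, a2, a3, a4⟩ <;>
      rcases hcs b with ⟨b1, b2, b3, b4⟩ | ⟨b1, b2, b3, b4⟩ | ⟨b1, b2, b3, b4⟩ <;>
      first
        | exact absurd (a1.trans b1.symm) hab
        | (rw [a2, b2] at hsb; exact absurd hsb (by decide))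
        | omega
    · intro a b hab hsb
      have e7 := bl_le W b
      rcases hcs a with ⟨a1, a2, a3, a4⟩ | ⟨a1, a2, a3, a4⟩ | ⟨a1, a2, a3, a4⟩
      · rcases hcs b with ⟨b1, b2, b3, b4⟩ | ⟨b1, b2, b3, b4⟩ | ⟨b1, b2, b3, b4⟩
        · exact absurd (a1.trans b1.symm) hab.ne
        · refine ⟨b2, fun x p m1 m2 m3 m4 => ?_⟩
          obtain rfl : p = v.val := by omega
          exact h1 x (by omega) (by omega)
        · exact ⟨b2, fun x p m1 m2 m3 m4 => h2 x p (by omega) (by omega) (by omega) (by omega)⟩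
      · rw [a2] at hsb; exact absurd hsb (by decide)
      · rw [a2] at hsb; exact absurd hsb (by decide)
  · have := Fintype.mem_piFinset.1 hψ r
    simp only [sb, st, wd, hs.symm, if_true, if_false, ne_eq, not_false_eq_true,
      decide_true] at this
    exact eq_of_PP (y := inr v) this
  · have := Fintype.mem_piFinset.1 hψ s
    simp only [sb, st, wd, if_true, ne_eq, not_true, decide_false, mem_PP] at this
    rcases h : ψ s with y | y
    · rw [h] at this; exact ⟨y, rfl, this.2⟩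
    · rw [h] at this; simp at this
  · intro a a1 a2
    have := Fintype.mem_piFinset.1 hψ a
    have e7 := bl_le W a
    simp only [sb, st, wd, a1, a2, if_false, ne_eq, not_false_eq_true, decide_true, mem_PP] at this
    rcases h : ψ a with y | y
    · rw [h] at this; simp at this
    · rw [h] at this
      simp only [vl_r] at this
      exact ⟨y, rfl, by omega, by omega⟩

lemma pw_mono {x y i j k : ℕ} (h : x ≤ y) (hij : i ≤ j) (hj : j ≤ k) :
    x ^ j * y ^ (k - j) ≤ x ^ i * y ^ (k - i) := by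
  obtain ⟨d, rfl⟩ := Nat.exists_eq_add_of_le hij
  rw [show k - i = d + (k - (i + d)) by omega, pow_add, pow_add, mul_assoc]
  exact Nat.mul_le_mul_left _ (Nat.mul_le_mul_right _ (Nat.pow_le_pow_left h _))

/-- maps with two prescribed values, one value in `X` and the values of `T c'` in `Y` -/
noncomputable def bad {V : Type} [Fintype V] {n : ℕ} (r : Fin n) (u a : V) (X Y : Finset V)
    (T : Fin n → Finset (Fin n)) : Finset (Fin n → V) :=
  univ.filter (fun φ => ∃ c c', c ≠ r ∧ c' ≠ r ∧ c ≠ c' ∧ c ∈ T c' ∧ r ∉ T c' ∧ c' ∉ T c' ∧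
    φ r = u ∧ φ c = a ∧ φ c' ∈ X ∧ ∀ x ∈ T c', x ≠ c → φ x ∈ Y)

lemma bad_card {V : Type} [Fintype V] {n : ℕ} (r : Fin n) (u a : V) (X Y : Finset V)
    (T : Fin n → Finset (Fin n)) (x y N i : ℕ) (hX : X.card ≤ x) (hY : Y.card ≤ y)
    (hN : Fintype.card V ≤ N) (hyN : y ≤ N)
    (hi : ∀ c c', c ∈ T c' → r ∉ T c' → c' ≠ r → c' ∉ T c' → i + 1 ≤ (T c').card) :
    (bad r u a X Y T).card ≤ n * n * (x * y ^ i * N ^ (n - (3 + i))) := by
  let P : Fin n × Fin n → Finset (Fin n → V) := fun p => Fintype.piFinset (fun z =>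
    if z = r then {u} else if z = p.1 then {a} else if z = p.2 then X else
      if z ∈ T p.2 then Y else univ)
  let S := univ.filter (fun p : Fin n × Fin n => p.1 ≠ r ∧ p.2 ≠ r ∧ p.1 ≠ p.2 ∧ p.1 ∈ T p.2 ∧
    r ∉ T p.2 ∧ p.2 ∉ T p.2)
  have h1 : bad r u a X Y T ⊆ S.biUnion P := by
    intro φ h
    simp only [bad, mem_filter, mem_univ, true_and] at h
    obtain ⟨c, c', k1, k2, k3, k4, k5, k6, k7, k8, k9, k10⟩ := h
    simp only [mem_biUnion, S, P, mem_filter, mem_univ, true_and, Fintype.mem_piFinset]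
    refine ⟨(c, c'), ⟨k1, k2, k3, k4, k5, k6⟩, fun z => ?_⟩
    split_ifs with m1 m2 m3 m4
    · simp [m1, k7]
    · simp [m2, k8]
    · rw [m3]; exact k9
    · exact k10 z m4 m2
    · simp
  refine (card_le_card h1).trans (card_biUnion_le.trans ?_)
  have h2 : ∀ p ∈ S, (P p).card ≤ x * y ^ i * N ^ (n - (3 + i)) := by
    rintro ⟨c, c'⟩ hp
    simp only [S, mem_filter, mem_univ, true_and] at hp
    obtain ⟨k1, k2, k3, k4, k5, k6⟩ := hp
    let g : Fin n → ℕ := fun z => if z = r then 1 else if z = c then 1 else if z = c' then x else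
      if z ∈ T c' then y else N
    have h3 : (P (c, c')).card ≤ ∏ z, g z := by
      simp only [P, Fintype.card_piFinset]
      apply prod_le_prod'
      intro z _
      simp only [g]
      split_ifs <;> simp [hX, hY, hN]
    have h4 := hi c c' k4 k5 k2 k6
    have h5 : (T c').card + 2 ≤ n := by
      have : insert r (insert c' (T c')) ⊆ univ := subset_univ _
      have := card_le_card this
      rw [card_insert_of_notMem (by simp [k2.symm, k5]), card_insert_of_notMem k6] at this
      simp only [card_univ, Fintype.card_fin] at this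
      omega
    rw [prod4 {r, c} {c'} ((T c').erase c) (by simp [k2, k3.symm]) (by simp [k5]) (by simp [k6])
      g x y N] at h3
    · refine h3.trans ?_
      rw [card_pair k1.symm, card_singleton, pow_one, card_erase_of_mem k4, Fintype.card_fin,
        mul_assoc, mul_assoc]
      apply Nat.mul_le_mul_left
      have := pw_mono (x := y) (y := N) (i := i) (j := (T c').card - 1) (k := n - 3) hyN
        (by omega) (by omega)
      rwa [show n - 3 - ((T c').card - 1) = n - (2 + 1 + ((T c').card - 1)) by omega,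
        show n - 3 - i = n - (3 + i) by omega] at this
    · intro z hz
      simp only [mem_insert, mem_singleton] at hz
      rcases hz with rfl | rfl <;> simp [g]
    · intro z hz
      rw [mem_singleton] at hz
      subst hz
      simp [g, k2, k3.symm]
    · intro z hz
      rw [mem_erase] at hz
      have a1 : z ≠ r := fun e => k5 (e ▸ hz.2)
      have a3 : z ≠ c' := fun e => k6 (e ▸ hz.2)
      simp [g, a1, a3, hz.1, hz.2]
    · intro z a1 a2 a3
      simp only [mem_insert, mem_singleton, not_or, mem_erase, not_and] at a1 a2 a3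
      simp [g, a1, a2, a3 a1.2]
  refine (sum_le_card_nsmul _ _ _ h2).trans ?_
  rw [smul_eq_mul]
  apply Nat.mul_le_mul_right
  exact (card_le_univ S).trans (by simp)

lemma ineq {k X Y Z X' Y' Z' cy cz i j n : ℕ} (h1 : Y ≤ cy * Y') (h2 : Z ≤ cz * Z') (hi : i ≤ n)
    (hj : j ≤ n) (hy : 1 ≤ cy) (hz : 1 ≤ cz) (h : k * X * (cy ^ n * cz ^ n) ≤ X') :
    k * (X * Y ^ i * Z ^ j) ≤ X' * Y' ^ i * Z' ^ j := by
  have e1 : Y ^ i ≤ cy ^ n * Y' ^ i := by
    refine (Nat.pow_le_pow_left h1 _).trans ?_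
    rw [mul_pow]
    exact Nat.mul_le_mul_right _ (Nat.pow_le_pow_right hy hi)
  have e2 : Z ^ j ≤ cz ^ n * Z' ^ j := by
    refine (Nat.pow_le_pow_left h2 _).trans ?_
    rw [mul_pow]
    exact Nat.mul_le_mul_right _ (Nat.pow_le_pow_right hz hj)
  calc k * (X * Y ^ i * Z ^ j) ≤ k * (X * (cy ^ n * Y' ^ i) * (cz ^ n * Z' ^ j)) := by gcongr
    _ = k * X * (cy ^ n * cz ^ n) * Y' ^ i * Z' ^ j := by ring
    _ ≤ _ := by gcongr

lemma low {w X Y Z i j n : ℕ} (h1 : 2 * w ≤ X) (h2 : w ≤ Y) (h3 : w ≤ Z) (h : 1 + i + j = n - 2) :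
    2 * w ^ (n - 2) ≤ X * Y ^ i * Z ^ j := by
  rw [← h, pow_add, pow_add, pow_one]
  calc 2 * (w * w ^ i * w ^ j) = 2 * w * w ^ i * w ^ j := by ring
    _ ≤ _ := by gcongr

end Pool.Agent.H.MP_c25556_co
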