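import Pool.Agent.H.MP_c25556_co.D

set_option autoImplicit false

namespace Pool.Agent.H.MP_c25556_co

open Finset Function Sum
open Pool.Agent.H.MP_bf8eef_co (IsC many many_card mem_many pool pool_card num edge_copy bl bl_ge bl_le bl_ne)
open scoped Classical

def A2 (D q t p : ℕ) : Prop := p ≤ t ∨ (t < D ∧ q + t ≤ p + D)

lemma swv {k : ℕ} (u v x : Fin k) : (Equiv.swap u v x).val =
    if x.val = u.val then v.val else if x.val = v.val then u.val else x.val := by
  rw [Equiv.swap_apply_def]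
  simp only [Fin.ext_iff]
  split_ifs <;> rfl

lemma brk_iff {A : ℕ → ℕ → Prop} {m q n : ℕ} {F : SimpleGraph (Fin n)}
    {φ : Fin n → Fin m ⊕ Fin q} (h : IsC F (GA A m q) φ) (f : Fin m → Fin m) (g : Fin q → Fin q)
    (hg : Injective g) : Brk F (GA A m q) (Sum.map f g) φ ↔
      ∃ a b x y, F.Adj a b ∧ φ a = inl x ∧ φ b = inr y ∧ A x y ∧ ¬ A (f x) (g y) := by
  constructor
  · rintro ⟨a, b, hab, k⟩
    have k6 := h.2 _ _ hab
    rcases hx : φ a with x | x <;> rcases hy : φ b with y | y <;> rw [hx, hy] at k6 k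
    · exact k6.elim
    · exact ⟨a, b, x, y, hab, hx, hy, k6, k⟩
    · exact ⟨b, a, y, x, hab.symm, hy, hx, k6, k⟩
    · exact absurd (fun e => k6 (congrArg Fin.val (hg (Fin.ext e)))) k
  · rintro ⟨a, b, x, y, hab, hx, hy, -, k⟩
    exact ⟨a, b, hab, by rw [hx, hy]; exact k⟩

section steps
variable {n w E Q D q c : ℕ} {F : SimpleGraph (Fin n)} {r s t : Fin n} (hn : 3 ≤ n)
  (hrs : F.Adj r s) (hst : F.Adj s t) (hrt : ¬ F.Adj r t) (hrt' : r ≠ t)
  (hD : D = 2 * ((n + 2) * E)) (hq : q = 2 * D + (n + 2) * Q + Q) (hwE : (n + 2) * w + w ≤ E)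
  (hDQ : 4 * D ≤ Q) (hc : 1 ≤ c) (hcw : q + q ≤ c * w) (hw : 2 ^ n * (4 ^ n * c ^ n) < w)

include hn hc hcw hw in
lemma m4 (a b c' d : Fin q ⊕ Fin q) :
    (many (Fin n) ({a, b, c', d} : Finset (Fin q ⊕ Fin q)) 3).card < w ^ (n - 2) := by
  exact many_lt _ hn (by omega) hc card_le_four (by simpa using hcw) hw

include hn hrs hD hq hwE hDQ hc hcw hw

lemma step2 (u v : Fin q) (h : v.val = u.val + 1) (hu : D ≤ u.val) :
    NR F r (GA (A2 D q) q q) (inl u) < NR F r (GA (A2 D q) q q) (inl v) := by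
  have e1 := bl_le E r
  have hv := v.2
  obtain ⟨Gd, g1, g2⟩ := famW (A := A2 D q) (m := q) F s r hrs.ne v v 1 0 E (by omega) (by omega)
    (by omega) (by unfold A2; intros; omega) (by unfold A2; intros; omega)
  apply cmp1 (Sum.map (Equiv.swap u v) id) (by rintro (x | x) <;> simp) (by simp)
    (many (Fin n) {inl u, inl v, inr v, inr v} 3) Gd
  · intro φ k1 k2 k3
    obtain ⟨a, b, x, y, hab, hx, hy, k4, k5⟩ := (brk_iff k1 _ _ injective_id).1 k3
    rw [swv] at k5
    have : x = v ∧ y = v := by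
      unfold A2 at k4 k5
      simp only [id, Fin.ext_iff] at k5 ⊢
      split_ifs at k5 <;> omega
    obtain ⟨rfl, rfl⟩ := this
    refine three r a b ?_ ?_ hab.ne (by simp [k2]) (by simp [hx]) (by simp [hy])
    · rintro rfl; rw [k2] at hx; have := congrArg vl hx; simp at this; omega
    · rintro rfl; rw [k2] at hy; simp at hy
  · intro ψ hψ
    obtain ⟨k1, k2, ⟨y, k3, k4, k5⟩, -⟩ := g2 ψ hψ
    obtain rfl : y = v := Fin.ext (by omega)
    refine ⟨k1, k3, r, s, hrs, ?_⟩
    rw [k2, k3]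
    simp only [Sum.map_inl, Sum.map_inr, Equiv.swap_apply_right, id, GA_lr]
    unfold A2; omega
  · rw [g1, one_mul]
    exact (m4 hn hc hcw hw _ _ _ _).trans_le (Nat.pow_le_pow_left (by omega) _)

lemma step4 (v u : Fin q) (h : u.val = v.val + 1) (hu : u.val + D < q) :
    NR F r (GA (A2 D q) q q) (inr u) < NR F r (GA (A2 D q) q q) (inr v) := by
  have e1 := bl_le E r
  obtain ⟨Gd, g1, g2⟩ := famW (A := A2 D q) (m := q) F r s hrs.ne' v v 1
    (if (n + 2) * E ≤ v.val then 0 else q - (n + 2) * E) E (by split_ifs <;> omega)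
    (by split_ifs <;> omega) (by omega) (by unfold A2; intros; omega)
    (by unfold A2; split_ifs <;> intros <;> omega)
  apply cmp1 (Sum.map id (Equiv.swap u v)) (by rintro (x | x) <;> simp) (by simp)
    (many (Fin n) {inr u, inr v, inl v, inl v} 3) Gd
  · intro φ k1 k2 k3
    obtain ⟨a, b, x, y, hab, hx, hy, k4, k5⟩ :=
      (brk_iff k1 _ _ (Equiv.swap u v).injective).1 k3
    rw [swv] at k5
    have : x = v ∧ y = v := by
      unfold A2 at k4 k5
      simp only [id, Fin.ext_iff] at k5 ⊢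
      split_ifs at k5 <;> omega
    obtain ⟨rfl, rfl⟩ := this
    refine three r a b ?_ ?_ hab.ne (by simp [k2]) (by simp [hx]) (by simp [hy])
    · rintro rfl; rw [k2] at hx; simp at hx
    · rintro rfl; rw [k2] at hy; have := congrArg vl hy; simp at this; omega
  · intro ψ hψ
    obtain ⟨k1, k2, ⟨y, k3, k4, k5⟩, -⟩ := g2 ψ hψ
    obtain rfl : y = v := Fin.ext (by omega)
    refine ⟨k1, k2, r, s, hrs, ?_⟩
    rw [k2, k3]
    simp only [Sum.map_inl, Sum.map_inr, Equiv.swap_apply_right, id, GA_rl]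
    unfold A2; omega
  · rw [g1, one_mul]
    exact (m4 hn hc hcw hw _ _ _ _).trans_le (Nat.pow_le_pow_left (by omega) _)

omit hc hcw hw in
lemma step3 (H3 : n * n * (D * (q + q) ^ 0 * (q + q) ^ (n - (3 + 0))) < E * E ^ (n - 2))
    (u v : Fin q) (hu : u.val + 1 = q) (hv : v.val + 1 = q) :
    NR F r (GA (A2 D q) q q) (inl u) < NR F r (GA (A2 D q) q q) (inr v) := by
  have e1 := bl_le E r
  have e0 : 0 < E := by
    rcases Nat.eq_zero_or_pos E with h | h
    · rw [h] at H3; simp at H3
    · exact h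
  obtain ⟨Gd, g1, g2⟩ := famW (A := A2 D q) (m := q) F r s hrs.ne' v 0 E
    (q - (n + 2) * E) E (by omega) (by omega) (by omega) (by unfold A2; intros; omega)
    (by unfold A2; intros; have := bl_ge E r; omega)
  apply cmp1 (Equiv.swap (inl u) (inr v)) (fun x => Equiv.swap_apply_self _ _ _)
    (Equiv.swap_apply_left _ _)
    (bad r (inl u) (inr v) (PP q q false 0 D) univ (fun c' => (univ.erase r).erase c')) Gd
  · rintro φ k1 k2 ⟨a, b, hab, k3⟩
    have key : ∀ a b, F.Adj a b → φ a = inr v → ¬ (GA (A2 D q) q q).Adj (inl u) (φ b) →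
        φ b ≠ inl u → φ ∈ bad r (inl u) (inr v) (PP q q false 0 D) univ
          (fun c' => (univ.erase r).erase c') := by
      intro a b hab ha m1 m2
      have m3 := k1.2 _ _ hab
      have ar : a ≠ r := by rintro rfl; rw [k2] at ha; simp at ha
      have br : b ≠ r := by rintro rfl; exact m2 k2
      simp only [bad, mem_filter, mem_univ, true_and]
      refine ⟨a, b, ar, br, hab.ne, by simp [ar, hab.ne], by simp, by simp, k2, ha, ?_, by simp⟩
      rw [ha] at m3
      rcases hb : φ b with y | y <;> rw [hb] at m1 m2 m3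
      · have : y.val ≠ u.val := fun e => m2 (by rw [Fin.ext e])
        have := y.2
        simp only [GA_rl, A2] at m3
        simp only [mem_PP, isRight_inl, vl_l, true_and]
        omega
      · have := y.2
        simp only [GA_lr, A2] at m1
        omega
    have hu' : ∀ z, (GA (A2 D q) q q).Adj (inl u) z → z ≠ inr v → (GA (A2 D q) q q).Adj (inr v) z := by
      rintro (z | z) m1 m2
      · exact m1.elim
      · exact fun e => m2 (by rw [Fin.ext e])
    have m3 := k1.2 _ _ hab
    by_cases a1 : φ a = inl u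
    · exfalso; apply k3
      rw [a1] at m3 ⊢
      rw [Equiv.swap_apply_left]
      by_cases b1 : φ b = inr v
      · rw [b1] at m3 ⊢; rw [Equiv.swap_apply_right]; exact m3.symm
      · rw [Equiv.swap_apply_of_ne_of_ne m3.ne' b1]; exact hu' _ m3 b1
    by_cases b1 : φ b = inl u
    · exfalso; apply k3
      rw [b1] at m3 ⊢
      rw [Equiv.swap_apply_left]
      by_cases a2 : φ a = inr v
      · rw [a2] at m3 ⊢; rw [Equiv.swap_apply_right]; exact m3.symm
      · rw [Equiv.swap_apply_of_ne_of_ne m3.ne a2]; exact (hu' _ m3.symm a2).symm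
    by_cases a2 : φ a = inr v
    · refine key a b hab a2 ?_ b1
      rwa [a2, Equiv.swap_apply_right, Equiv.swap_apply_of_ne_of_ne b1 (a2 ▸ m3.ne')] at k3
    by_cases b2 : φ b = inr v
    · refine key b a hab.symm b2 (fun e => k3 ?_) a1
      rw [b2, Equiv.swap_apply_right, Equiv.swap_apply_of_ne_of_ne a1 a2]
      exact e.symm
    · rw [Equiv.swap_apply_of_ne_of_ne a1 a2, Equiv.swap_apply_of_ne_of_ne b1 b2] at k3
      exact absurd m3 k3
  · intro ψ hψ
    obtain ⟨k1, k2, ⟨y, k3, k4, k5⟩, -⟩ := g2 ψ hψ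
    refine ⟨k1, k2, r, s, hrs, ?_⟩
    rw [k2, k3, Equiv.swap_apply_right, Equiv.swap_apply_of_ne_of_ne
      (fun e => by have := congrArg vl e; simp at this; omega) (by simp)]
    simp
  · rw [g1]
    refine (bad_card r _ _ _ _ _ D (q + q) (q + q) 0 (PP_le _ _ _) (by simp) (by simp) le_rfl
      ?_).trans_lt H3
    intro c c' h _ _ _
    exact card_pos.2 ⟨c, h⟩

include hst hrt' in
lemma step5 (H5 : 2 * (n * n * (D * (q + q) ^ 0 * (q + q) ^ (n - (3 + 0)))) ≤ Q ^ (n - 2))
    (v u : Fin q) (h : u.val = v.val + 1) (hu : q ≤ u.val + D) :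
    NR F r (GA (A2 D q) q q) (inr u) < NR F r (GA (A2 D q) q q) (inr v) := by
  have e1 := bl_le E r
  have e2 := bl_le Q r
  have hu2 := u.2
  obtain ⟨Gd, g1, g2⟩ := famW (A := A2 D q) (m := q) F r s hrs.ne' v v 1 D Q (by omega)
    (by omega) (by omega) (by unfold A2; intros; omega) (by unfold A2; intros; omega)
  obtain ⟨a, ha⟩ : ∃ a : Fin q, a.val + q = u.val + D := ⟨⟨u.val + D - q, by omega⟩, by simp; omega⟩
  apply cmp2 (Sum.map id (Equiv.swap u v)) (Sum.map (Equiv.swap a v) (Equiv.swap u v))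
    (by rintro (x | x) <;> simp) (by rintro (x | x) <;> simp) (by simp) (by simp)
    (many (Fin n) {inr u, inr v, inl a, inl v} 3 ∪
      bad r (inr u) (inl a) (PP q q true (q - D) D) univ (fun c' => (univ.erase r).erase c')) Gd
  · intro φ k1 k2 k3 k4
    rw [mem_union, not_or] at k3
    obtain ⟨a0, b0, x, y, hab, hx, hy, k5, k6⟩ :=
      (brk_iff k1 _ _ (Equiv.swap u v).injective).1 k4
    have a0r : a0 ≠ r := by rintro rfl; rw [k2] at hx; simp at hx
    have : (x = a ∧ y = u) ∨ (x = v ∧ y = v) := by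
      rw [swv] at k6
      unfold A2 at k5 k6
      simp only [id, Fin.ext_iff] at k6 ⊢
      split_ifs at k6 <;> omega
    rcases this with ⟨rfl, rfl⟩ | ⟨rfl, rfl⟩
    · obtain rfl : b0 = r := k1.1 (hy.trans k2.symm)
      refine ⟨fun k7 => ?_, b0, a0, hab.symm, ?_⟩
      · obtain ⟨a1, b1, x', y', hab', hx', hy', k8, k9⟩ :=
          (brk_iff k1 _ _ (Equiv.swap y v).injective).1 k7
        have a1r : a1 ≠ b0 := by rintro rfl; rw [k2] at hx'; simp at hx'
        have nv : x' ≠ v := by
          rintro rfl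
          apply k3.1
          refine three b0 a0 a1 a0r.symm a1r.symm ?_ (by simp [k2]) (by simp [hx]) (by simp [hx'])
          rintro rfl
          rw [hx] at hx'; have := congrArg vl hx'; simp at this; omega
        have := y'.2
        have : x' = x ∧ y.val < y'.val := by
          rw [swv, swv] at k9
          unfold A2 at k8 k9
          simp only [ne_eq, Fin.ext_iff] at nv ⊢
          split_ifs at k9 <;> omega
        obtain ⟨rfl, m1⟩ := this
        apply k3.2
        have b1r : b1 ≠ b0 := by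
          rintro rfl
          rw [k2] at hy'; have := congrArg vl hy'; simp at this; omega
        simp only [bad, mem_filter, mem_univ, true_and]
        refine ⟨a1, b1, a1r, b1r, hab'.ne, by simp [a1r, hab'.ne], by simp, by simp, k2, hx', ?_,
          by simp⟩
        simp only [hy', mem_PP, isRight_inr, vl_r, true_and]
        omega
      · simp only [comp_apply, k2, hx, Sum.map_inl, Sum.map_inr, Equiv.swap_apply_left,
          Equiv.swap_apply_right, id, GA_rl]
        unfold A2; omega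
    · exfalso; apply k3.1
      refine three r a0 b0 a0r.symm ?_ hab.ne (by simp [k2]) (by simp [hx]) (by simp [hy])
      rintro rfl
      rw [k2] at hy; have := congrArg vl hy; simp at this; omega
  · intro ψ hψ
    obtain ⟨k1, k2, ⟨y, k3, k4, k5⟩, k6⟩ := g2 ψ hψ
    obtain rfl : y = v := Fin.ext (by omega)
    obtain ⟨p, k7, k8, k9⟩ := k6 t hrt'.symm hst.ne'
    refine ⟨k1, k2, ⟨r, s, hrs, ?_⟩, ⟨s, t, hst, ?_⟩⟩
    · rw [k2, k3]
      simp only [Sum.map_inl, Sum.map_inr, Equiv.swap_apply_right, id, GA_rl]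
      unfold A2; omega
    · rw [k3, k7]
      simp only [Sum.map_inl, Sum.map_inr, Equiv.swap_apply_right, GA_lr, swv]
      unfold A2
      split_ifs <;> omega
  · rw [g1, one_mul]
    have b1 := m4 hn hc hcw hw (inr u) (inr v) (inl a) (inl v)
    have b2 := bad_card r (inr u : Fin q ⊕ Fin q) (inl a) (PP q q true (q - D) D) univ
      (fun c' => (univ.erase r).erase c') D (q + q) (q + q) 0 (PP_le _ _ _) (by simp) (by simp)
      le_rfl (fun c c' h _ _ _ => card_pos.2 ⟨c, h⟩)
    have b3 := low (w := w) (X := Q) (Y := Q) (Z := Q) (i := 0) (j := n - 3) (n := n) (by omega)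
      (by omega) (by omega) (by omega)
    have b4 : Q * Q ^ 0 * Q ^ (n - 3) = Q ^ (n - 2) := by
      rw [show n - 2 = n - 3 + 1 by omega]; ring
    refine (card_union_le _ _).trans_lt ?_
    omega

include hst hrt hrt' in
lemma step1
    (hmin : ∀ s' t', F.Adj r s' → F.Adj s' t' → ¬ F.Adj r t' → t' ≠ r →
      (F.neighborFinset r ∪ F.neighborFinset t).card ≤
        (F.neighborFinset r ∪ F.neighborFinset t').card)
    (H1 : ∀ i, i + 3 ≤ n → 2 * (n * n * (((n + 2) * w) * (2 * D + 1) ^ i * (q + q) ^ (n - (3 + i))))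
      ≤ E * E ^ i * Q ^ (n - (3 + i)))
    (H2 : ∀ i, i + 3 ≤ n → 2 * (n * n * (D * (2 * D + 1) ^ i * (q + q) ^ (n - (3 + i))))
      ≤ Q * w ^ i * Q ^ (n - (3 + i)))
    (u v : Fin q) (h : v.val = u.val + 1) (hu : u.val < D) :
    NR F r (GA (A2 D q) q q) (inl u) < NR F r (GA (A2 D q) q q) (inl v) := by
  have e1 := bl_le E r
  have e1' := bl_ge E r
  have e2 := bl_le Q r
  have e3 := bl_le w r
  have e4 : 0 < w := by omega
  obtain ⟨a, ha⟩ : ∃ a : Fin q, a.val + D = q + u.val := ⟨⟨q + u.val - D, by omega⟩, by simp; omega⟩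
  let T : Fin n → Finset (Fin n) := fun c' => if ∃ s', F.Adj r s' ∧ F.Adj s' c' then
    F.neighborFinset r ∪ F.neighborFinset c' else ∅
  let Y : Finset (Fin q ⊕ Fin q) := PP q q true 0 (D + 1) ∪ PP q q true (q - D) D
  have hY : Y.card ≤ 2 * D + 1 := by
    have y1 := PP_le (m := q) (q := q) true 0 (D + 1)
    have y2 := PP_le (m := q) (q := q) true (q - D) D
    have y3 := card_union_le (PP q q true 0 (D + 1)) (PP q q true (q - D) D)
    simp only [Y]; omega
  have hcard : ∀ T0 : Finset (Fin n), r ∉ T0 → s ∉ T0 → t ∉ T0 → T0.card + 3 ≤ n := by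
    intro T0 h1 h2 h3
    have : insert r (insert s (insert t T0)) ⊆ univ := subset_univ _
    have := card_le_card this
    rw [card_insert_of_notMem (by simp [hrs.ne, hrt', h1]),
      card_insert_of_notMem (by simp [hst.ne, h2]), card_insert_of_notMem h3] at this
    simp only [card_univ, Fintype.card_fin] at this
    omega
  obtain ⟨Gd, g1, g2⟩ : ∃ Gd : Finset (Fin n → Fin q ⊕ Fin q),
      (2 * w ^ (n - 2) ≤ Gd.card ∧ 2 * (bad r (inl u) (inr a) (PP q q false 0 u.val) Y T).card ≤
        Gd.card) ∧ ∀ ψ ∈ Gd, IsC F (GA (A2 D q) q q) ψ ∧ ψ r = inl v ∧ ψ s = inr v ∧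
        ∃ y : Fin q, ψ t = inl y ∧ v.val < y.val ∧ y.val < a.val := by
    by_cases hK : u.val < (n + 2) * w
    · have t1 : r ∉ (F.neighborFinset r ∪ F.neighborFinset t).erase s := by
        have : ¬ F.Adj t r := fun h => hrt h.symm
        simp [this]
      have t2 : s ∉ (F.neighborFinset r ∪ F.neighborFinset t).erase s := by simp
      have t3 : t ∉ (F.neighborFinset r ∪ F.neighborFinset t).erase s := by simp [hrt]
      have t4 := hcard _ t1 t2 t3
      obtain ⟨Gd, g1, g2⟩ := famT (A := A2 D q) (m := q) F r s t hrs.ne hrt' hst.ne hrt _ t1 t2 t3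
        v v E E (q - (n + 2) * E) E D Q (by omega) (by omega) (by omega) (by omega) (by omega)
        (by omega) (by omega) (Or.inl le_rfl) (by unfold A2; intros; omega)
        (by unfold A2; intros; omega) (by unfold A2; intros; omega)
        (fun x hx => by by_cases e : x = s <;> simp [e, hx])
        (Or.inl (fun x hx => by by_cases e : x = s <;> simp [e, hx]))
      refine ⟨Gd, ⟨?_, ?_⟩, fun ψ hψ => ?_⟩
      · rw [g1]; exact low (by omega) (by omega) (by omega) (by omega)
      · rw [g1]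
        refine le_trans (Nat.mul_le_mul_left 2 ?_) (H1 _ t4)
        refine bad_card r _ _ _ _ _ _ _ _ _ ((PP_le _ _ _).trans hK.le) hY (by simp) (by omega) ?_
        intro c c' m1 m2 m3 m4
        simp only [T] at m1 m2 m4 ⊢
        split_ifs at m1 m2 m4 ⊢ with m5
        · obtain ⟨s', m6, m7⟩ := m5
          have := hmin s' c' m6 m7 (fun e => m4 (by simp [e])) m3
          rw [card_erase_of_mem (by simp [hrs])]
          have : 0 < (F.neighborFinset r ∪ F.neighborFinset t).card := card_pos.2 ⟨s, by simp [hrs]⟩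
          omega
        · simp at m1
      · obtain ⟨k1, k2, k3, y, k4, k5, k6⟩ := g2 ψ hψ
        exact ⟨k1, k2, k3, y, k4, by omega, by omega⟩
    · have t1 : r ∉ (F.neighborFinset r).erase s := by simp
      have t2 : s ∉ (F.neighborFinset r).erase s := by simp
      have t3 : t ∉ (F.neighborFinset r).erase s := by simp [hrt]
      have t4 := hcard _ t1 t2 t3
      obtain ⟨Gd, g1, g2⟩ := famT (A := A2 D q) (m := q) F r s t hrs.ne hrt' hst.ne hrt _ t1 t2 t3
        v v (D + (n + 2) * Q) Q 0 w D Q (by omega) (by omega) (by omega) (by omega) (by omega)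
        (by omega) (by omega) (Or.inl le_rfl) (by unfold A2; intros; omega)
        (by unfold A2; intros; omega) (by unfold A2; intros; omega)
        (fun x hx => by by_cases e : x = s <;> simp [e, hx])
        (Or.inr (by unfold A2; intros; omega))
      refine ⟨Gd, ⟨?_, ?_⟩, fun ψ hψ => ?_⟩
      · rw [g1]; exact low (by omega) (by omega) (by omega) (by omega)
      · rw [g1]
        refine le_trans (Nat.mul_le_mul_left 2 ?_) (H2 _ t4)
        refine bad_card r _ _ _ _ _ _ _ _ _ ((PP_le _ _ _).trans hu.le) hY (by simp) (by omega) ?_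
        intro c c' m1 m2 m3 m4
        simp only [T] at m1 m2 m4 ⊢
        split_ifs at m1 m2 m4 ⊢ with m5
        · rw [card_erase_of_mem (by simp [hrs])]
          have : 0 < (F.neighborFinset r).card := card_pos.2 ⟨s, by simp [hrs]⟩
          have := card_le_card (subset_union_left (s₁ := F.neighborFinset r)
            (s₂ := F.neighborFinset c'))
          omega
        · simp at m1
      · obtain ⟨k1, k2, k3, y, k4, k5, k6⟩ := g2 ψ hψ
        exact ⟨k1, k2, k3, y, k4, by omega, by omega⟩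
  apply cmp2 (Sum.map (Equiv.swap u v) id) (Sum.map (Equiv.swap u v) (Equiv.swap a v))
    (by rintro (x | x) <;> simp) (by rintro (x | x) <;> simp) (by simp) (by simp)
    (many (Fin n) {inl u, inl v, inr a, inr v} 3 ∪
      bad r (inl u) (inr a) (PP q q false 0 u.val) Y T) Gd
  · intro φ k1 k2 k3 k4
    rw [mem_union, not_or] at k3
    obtain ⟨a0, b0, x, y, hab, hx, hy, k5, k6⟩ := (brk_iff k1 _ _ injective_id).1 k4
    have b0r : b0 ≠ r := by rintro rfl; rw [k2] at hy; simp at hy
    have : (x = u ∧ y = a) ∨ (x = v ∧ y = v) := by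
      rw [swv] at k6
      unfold A2 at k5 k6
      simp only [id, Fin.ext_iff] at k6 ⊢
      split_ifs at k6 <;> omega
    rcases this with ⟨rfl, rfl⟩ | ⟨rfl, rfl⟩
    · obtain rfl : a0 = r := k1.1 (hx.trans k2.symm)
      refine ⟨fun k7 => ?_, a0, b0, hab, ?_⟩
      · obtain ⟨a1, b1, x', y', hab', hx', hy', k8, k9⟩ :=
          (brk_iff k1 _ _ (Equiv.swap y v).injective).1 k7
        have b1r : b1 ≠ a0 := by rintro rfl; rw [k2] at hy'; simp at hy'
        have nv : y' ≠ v := by
          rintro rfl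
          apply k3.1
          refine three a0 b0 b1 b0r.symm b1r.symm ?_ (by simp [k2]) (by simp [hy]) (by simp [hy'])
          rintro rfl
          rw [hy] at hy'; have := congrArg vl hy'; simp at this; omega
        have : y' = y ∧ x'.val < x.val := by
          rw [swv, swv] at k9
          unfold A2 at k8 k9
          simp only [ne_eq, Fin.ext_iff] at nv ⊢
          split_ifs at k9 <;> omega
        obtain ⟨rfl, m1⟩ := this
        obtain rfl : b1 = b0 := k1.1 (hy'.trans hy.symm)
        apply k3.2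
        have a1r : a1 ≠ a0 := by
          rintro rfl
          rw [k2] at hx'; have := congrArg vl hx'; simp at this; omega
        have na : ¬ F.Adj a0 a1 := fun e => by
          have := k1.2 _ _ e
          rw [k2, hx'] at this; exact this
        have hT : T a1 = F.neighborFinset a0 ∪ F.neighborFinset a1 :=
          if_pos ⟨b1, hab, hab'.symm⟩
        have inY : ∀ (z : Fin q) (e : Fin q ⊕ Fin q), z.val < D →
            (GA (A2 D q) q q).Adj (inl z) e → e ∈ Y := by
          rintro z (e | e) m2 m3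
          · exact m3.elim
          · have := e.2
            simp only [GA_lr, A2] at m3
            simp only [Y, mem_union, mem_PP, isRight_inr, vl_r, true_and]
            omega
        simp only [bad, mem_filter, mem_univ, true_and]
        refine ⟨b1, a1, b1r, a1r, hab'.ne', by simp [hT, hab], ?_, by simp [hT, na], k2, hy, ?_, ?_⟩
        · have : ¬ F.Adj a1 a0 := fun e => na e.symm
          simp [hT, this]
        · simp only [hx', mem_PP, isRight_inl, vl_l, true_and]
          omega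
        · intro z hz _
          simp only [hT, mem_union, SimpleGraph.mem_neighborFinset] at hz
          rcases hz with hz | hz
          · exact inY x _ hu (k2 ▸ k1.2 _ _ hz)
          · exact inY x' _ (by omega) (hx' ▸ k1.2 _ _ hz)
      · simp only [comp_apply, k2, hy, Sum.map_inl, Sum.map_inr, Equiv.swap_apply_left,
          Equiv.swap_apply_right, id, GA_lr]
        unfold A2; omega
    · exfalso; apply k3.1
      refine three r a0 b0 ?_ b0r.symm hab.ne (by simp [k2]) (by simp [hx]) (by simp [hy])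
      rintro rfl
      rw [k2] at hx; have := congrArg vl hx; simp at this; omega
  · intro ψ hψ
    obtain ⟨k1, k2, k3, y, k4, k5, k6⟩ := g2 ψ hψ
    refine ⟨k1, k2, ⟨r, s, hrs, ?_⟩, ⟨s, t, hst, ?_⟩⟩
    · rw [k2, k3]
      simp only [Sum.map_inl, Sum.map_inr, Equiv.swap_apply_right, id, GA_lr]
      unfold A2; omega
    · rw [k3, k4]
      simp only [Sum.map_inl, Sum.map_inr, Equiv.swap_apply_right, GA_rl, swv]
      unfold A2
      split_ifs <;> omega
  · have b1 := m4 hn hc hcw hw (inl u) (inl v) (inr a) (inr v)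
    refine (card_union_le _ _).trans_lt ?_
    omega

end steps

lemma caseA {n : ℕ} {F : SimpleGraph (Fin n)} (hn : 3 ≤ n) {r : Fin n}
    (h0 : ∃ s t, F.Adj r s ∧ F.Adj s t ∧ ¬ F.Adj r t ∧ t ≠ r) (z : ℕ) :
    ∃ (m : ℕ) (G' : SimpleGraph (Fin m)), z ≤ m ∧ Injective (rdeg F r G') := by
  obtain ⟨t, ht, hmin⟩ := exists_min_image
    (univ.filter (fun t => ∃ s, F.Adj r s ∧ F.Adj s t ∧ ¬ F.Adj r t ∧ t ≠ r))
    (fun t => (F.neighborFinset r ∪ F.neighborFinset t).card)
    (by obtain ⟨s, t, h⟩ := h0; exact ⟨t, by simpa using ⟨s, h⟩⟩)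
  simp only [mem_filter, mem_univ, true_and] at ht hmin
  obtain ⟨s, hrs, hst, hrt, hrt'⟩ := ht
  obtain ⟨e, he1, he2⟩ : ∃ e, 2 * (n * n) * (n + 2) * ((4 * n + 9) ^ n * (2 * n + 7) ^ n) ≤ e ∧
    n + 3 ≤ e := ⟨_ + (n + 3), Nat.le_add_right _ _, Nat.le_add_left _ _⟩
  obtain ⟨g, hg1, hg2⟩ : ∃ g, 2 * (n * n) * (((4 * n + 9) * e) ^ n * (2 * n + 7) ^ n) ≤ g ∧
    4 ≤ g := ⟨_ + 4, Nat.le_add_right _ _, Nat.le_add_left _ _⟩
  obtain ⟨c, hc⟩ : ∃ c, c = (2 * n + 7) * (g * (2 * ((n + 2) * e))) := ⟨_, rfl⟩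
  obtain ⟨w, hw1, hw2, hw3⟩ : ∃ w, 2 ^ n * (4 ^ n * c ^ n) < w ∧
      2 * (n * n) * c * (1 ^ n * c ^ n) ≤ w ∧ z ≤ w :=
    ⟨2 ^ n * (4 ^ n * c ^ n) + 1 + 2 * (n * n) * c * (1 ^ n * c ^ n) + z, by omega, by omega,
      by omega⟩
  obtain ⟨E, hE⟩ : ∃ E, E = e * w := ⟨_, rfl⟩
  obtain ⟨D, hD⟩ : ∃ D, D = 2 * ((n + 2) * E) := ⟨_, rfl⟩
  obtain ⟨Q, hQ⟩ : ∃ Q, Q = g * D := ⟨_, rfl⟩
  obtain ⟨q, hq⟩ : ∃ q, q = 2 * D + (n + 2) * Q + Q := ⟨_, rfl⟩
  have w0 : 0 < w := by omega
  have hwE : (n + 2) * w + w ≤ E := by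
    rw [hE, show (n + 2) * w + w = (n + 3) * w by ring]; exact Nat.mul_le_mul_right _ he2
  have hDQ : 4 * D ≤ Q := by rw [hQ]; exact Nat.mul_le_mul_right _ hg2
  have hqQ : q + q ≤ (2 * n + 7) * Q := by
    have : (2 * n + 7) * Q = 2 * ((n + 2) * Q) + 3 * Q := by ring
    omega
  have hc1 : 1 ≤ c := by
    rw [hc]
    exact Nat.mul_pos (by omega) (Nat.mul_pos (by omega) (Nat.mul_pos (by omega)
      (Nat.mul_pos (by omega) (by omega))))
  have hcw : q + q ≤ c * w := by
    refine hqQ.trans (le_of_eq ?_)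
    rw [hc, hQ, hD, hE]; ring
  have hDE : 2 * D + 1 ≤ (4 * n + 9) * E := by
    have : (4 * n + 9) * E = 4 * ((n + 2) * E) + E := by ring
    omega
  have e1 := bl_le E r
  have H3 : n * n * (D * (q + q) ^ 0 * (q + q) ^ (n - (3 + 0))) < E * E ^ (n - 2) := by
    have a1 := ineq (k := 2 * (n * n)) (X := D) (Y := q + q) (Z := q + q) (X' := w * w) (Y' := q + q)
      (Z' := w) (cy := 1) (cz := c) (i := 0) (j := n - (3 + 0)) (n := n) (by omega) hcw (by omega)
      (by omega) le_rfl hc1 (by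
        calc 2 * (n * n) * D * (1 ^ n * c ^ n) ≤ 2 * (n * n) * (c * w) * (1 ^ n * c ^ n) := by
              gcongr; omega
          _ = 2 * (n * n) * c * (1 ^ n * c ^ n) * w := by ring
          _ ≤ w * w := Nat.mul_le_mul_right _ hw2)
    have a2 : w * w * (q + q) ^ 0 * w ^ (n - (3 + 0)) ≤ E * E ^ (n - 2) := by
      rw [show n - 2 = n - (3 + 0) + 1 by omega, pow_succ]
      calc w * w * (q + q) ^ 0 * w ^ (n - (3 + 0)) = w * (w ^ (n - (3 + 0)) * w) := by ring
        _ ≤ _ := by gcongr <;> omega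
    have a3 : 0 < E * E ^ (n - 2) := Nat.mul_pos (by omega) (pow_pos (by omega) _)
    rw [mul_assoc] at a1
    omega
  have pw1 : 1 ≤ ((4 * n + 9) * e) ^ n := Nat.one_le_pow _ _ (Nat.mul_pos (by omega) (by omega))
  have H5 : 2 * (n * n * (D * (q + q) ^ 0 * (q + q) ^ (n - (3 + 0)))) ≤ Q ^ (n - 2) := by
    have a1 := ineq (k := 2 * (n * n)) (X := D) (Y := q + q) (Z := q + q) (X' := Q) (Y' := q + q)
      (Z' := Q) (cy := 1) (cz := 2 * n + 7) (i := 0) (j := n - (3 + 0)) (n := n) (by omega) hqQ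
      (by omega) (by omega) le_rfl (by omega) (by
        calc 2 * (n * n) * D * (1 ^ n * (2 * n + 7) ^ n)
            = 2 * (n * n) * (1 * (2 * n + 7) ^ n) * D := by ring
          _ ≤ 2 * (n * n) * (((4 * n + 9) * e) ^ n * (2 * n + 7) ^ n) * D := by gcongr
          _ ≤ Q := by rw [hQ]; exact Nat.mul_le_mul_right _ hg1)
    rw [mul_assoc] at a1
    refine a1.trans (le_of_eq ?_)
    rw [show n - 2 = n - (3 + 0) + 1 by omega]; ring
  have H1 : ∀ i, i + 3 ≤ n →
      2 * (n * n * (((n + 2) * w) * (2 * D + 1) ^ i * (q + q) ^ (n - (3 + i))))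
      ≤ E * E ^ i * Q ^ (n - (3 + i)) := by
    intro i hi
    rw [← mul_assoc]
    refine ineq (n := n) hDE hqQ (by omega) (by omega) (by omega) (by omega) ?_
    calc _ = 2 * (n * n) * (n + 2) * ((4 * n + 9) ^ n * (2 * n + 7) ^ n) * w := by ring
      _ ≤ E := by rw [hE]; exact Nat.mul_le_mul_right _ he1
  have H2 : ∀ i, i + 3 ≤ n → 2 * (n * n * (D * (2 * D + 1) ^ i * (q + q) ^ (n - (3 + i))))
      ≤ Q * w ^ i * Q ^ (n - (3 + i)) := by
    intro i hi
    rw [← mul_assoc]
    refine ineq (n := n) (cy := (4 * n + 9) * e) (by rw [mul_assoc, ← hE]; exact hDE) hqQ (by omega)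
      (by omega) (Nat.mul_pos (by omega) (by omega)) (by omega) ?_
    calc _ = 2 * (n * n) * (((4 * n + 9) * e) ^ n * (2 * n + 7) ^ n) * D := by ring
      _ ≤ Q := by rw [hQ]; exact Nat.mul_le_mul_right _ hg1
  apply transferR F r (GA (A2 D q) q q) z (by simp; omega)
  apply chain
  · intro a b hab
    by_cases h : a.val < D
    · exact step1 hn hrs hst hrt hrt'.symm hD hq hwE hDQ hc1 hcw hw1
        (fun s' t' k1 k2 k3 k4 => hmin t' ⟨s', k1, k2, k3, k4⟩) H1 H2 a b hab h
    · exact step2 hn hrs hD hq hwE hDQ hc1 hcw hw1 a b hab (by omega)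
  · intro a b hab
    by_cases h : b.val + D < q
    · exact step4 hn hrs hD hq hwE hDQ hc1 hcw hw1 a b hab h
    · exact step5 hn hrs hst hrt'.symm hD hq hwE hDQ hc1 hcw hw1 H5 a b hab (by omega)
  · intro a b ha hb
    exact step3 hn hrs hD hq hwE hDQ H3 a b ha hb

end Pool.Agent.H.MP_c25556_co
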